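import Pool.Agent.H48.RG.Mono
import Pool.Agent.H48.R9.TimA
import Pool.Agent.H48.R9.TimA

/-!
time_list: for one monomial: mv μ a b * t⁻¹^(2 wt μ) * exp * t⁻¹^(2k+1) = mv μ * [t⁻¹^(2(k + wt μ - 1) + 3) exp(..)]: time_gen
(R9/TimA.lean) with m = k + wt μ - 1 gives (k + wt μ - 1)!/(2 c^(2(k + wt μ))); induction on the list.
slg: |mv μ a b| ≤ |c| (c²)^x (‖a‖‖b‖)^(y+z) (c²)^z (|⟪a,b⟫| ≤ ‖a‖‖b‖, |prg a b| ≤ ‖a‖‖b‖c², c = ‖a-b‖), so the monomial contributes at most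
|c| (k+wt-1)!/2 (‖a‖‖b‖)^e c⁻¹^(2(k+e)), e = y + z; with the weight ‖a‖⁻¹^(2m)‖b‖⁻¹^(2m)(‖a‖‖b‖)^j, 2m + k = j + N, this is
u^(N-(k+e)) v^(N-(k+e)) w^(2(k+e)) ≤ SN (monoN, i = k + e, 2i ≤ N).  (p.1-z)-(p.2-z) = p.1-p.2.
-/

set_option autoImplicit false

open MeasureTheory Filter Topology Metric Set
open scoped RealInnerProductSpace ENNReal

namespace Pool.Agent.H48.RG

open Pool.Agent.RZ Pool.Agent.H1.LD Pool.Agent.H48.R7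

variable {d : ℕ}

private theorem RGTim_bd (a b : X d) :
    |⟪a, b⟫| ≤ ‖a‖ * ‖b‖ ∧ |prg a b| ≤ (‖a‖ * ‖b‖) * ‖a - b‖ ^ 2 := by
  refine ⟨abs_real_inner_le_norm a b, ?_⟩
  have h1 : |⟪a, a - b⟫| ≤ ‖a‖ * ‖a - b‖ := abs_real_inner_le_norm a (a - b)
  have h2 : |⟪b, b - a⟫| ≤ ‖b‖ * ‖a - b‖ := by
    have := abs_real_inner_le_norm b (b - a)
    rwa [norm_sub_rev b a] at this
  unfold prg
  rw [abs_mul]
  calc |⟪a, a - b⟫| * |⟪b, b - a⟫| ≤ (‖a‖ * ‖a - b‖) * (‖b‖ * ‖a - b‖) := by gcongr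
    _ = (‖a‖ * ‖b‖) * ‖a - b‖ ^ 2 := by ring

private theorem RGTim_mv (μ : Mn) (a b : X d) :
    |mv μ a b| ≤ |(μ.1 : ℝ)| * ((‖a - b‖ ^ 2) ^ μ.2.1 * (‖a‖ * ‖b‖) ^ μ.2.2.1 *
      ((‖a‖ * ‖b‖) * ‖a - b‖ ^ 2) ^ μ.2.2.2) := by
  obtain ⟨h1, h2⟩ := RGTim_bd a b
  unfold mv
  simp only [abs_mul, abs_pow, abs_norm]
  rw [mul_assoc, mul_assoc, ← mul_assoc ((‖a - b‖ ^ 2) ^ μ.2.1)]
  gcongr

private theorem RGTim_core {N m j k x y w : ℕ} (hm : 2 * m + k = j + N)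
    (hN : 2 * (k + y + w) ≤ N) {α β c : ℝ} (hα : 0 < α) (hβ : 0 < β) (hc : 0 < c) :
    (α⁻¹ ^ (2 * m) * β⁻¹ ^ (2 * m) * (α * β) ^ j) * (((c ^ 2) ^ x * (α * β) ^ y *
      ((α * β) * c ^ 2) ^ w) * c⁻¹ ^ (2 * (k + (x + y + 2 * w)))) =
    α⁻¹ ^ (N - (k + y + w)) * β⁻¹ ^ (N - (k + y + w)) * c⁻¹ ^ (2 * (k + y + w)) := by
  obtain ⟨r, hr⟩ : ∃ r, N - (k + y + w) = r := ⟨_, rfl⟩
  have e1 : 2 * m = r + (j + y + w) := by omega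
  have e2 : 2 * (k + (x + y + 2 * w)) = 2 * (k + y + w) + 2 * (x + w) := by ring
  have ha : α⁻¹ ^ (j + y + w) * α ^ (j + y + w) = 1 := by
    rw [← mul_pow, inv_mul_cancel₀ hα.ne', one_pow]
  have hb : β⁻¹ ^ (j + y + w) * β ^ (j + y + w) = 1 := by
    rw [← mul_pow, inv_mul_cancel₀ hβ.ne', one_pow]
  have hcc : c⁻¹ ^ (2 * (x + w)) * c ^ (2 * (x + w)) = 1 := by
    rw [← mul_pow, inv_mul_cancel₀ hc.ne', one_pow]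
  rw [hr, e1, e2, pow_add α⁻¹ r, pow_add β⁻¹ r, pow_add c⁻¹ (2 * (k + y + w))]
  generalize α⁻¹ ^ (j + y + w) = u1 at ha ⊢
  generalize β⁻¹ ^ (j + y + w) = u2 at hb ⊢
  generalize c⁻¹ ^ (2 * (x + w)) = u3 at hcc ⊢
  generalize α⁻¹ ^ r = v1
  generalize β⁻¹ ^ r = v2
  generalize c⁻¹ ^ (2 * (k + y + w)) = v3
  calc _ = v1 * v2 * v3 * (u1 * α ^ (j + y + w)) * (u2 * β ^ (j + y + w)) *
        (u3 * c ^ (2 * (x + w))) := by ring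
    _ = v1 * v2 * v3 := by rw [ha, hb, hcc]; ring

private theorem RGTim_abs {a b : X d} (h : a ≠ b) (k : ℕ) (L : List Mn)
    (hL : ∀ μ ∈ L, 1 ≤ k + wt μ) :
    IntegrableOn (fun t : ℝ => lv L a b t * t⁻¹ ^ (2 * k + 1)) (Ioi 0) ∧
    ∫ t in Ioi (0 : ℝ), lv L a b t * t⁻¹ ^ (2 * k + 1) = li k L a b ∧
    ∫ t in Ioi (0 : ℝ), |lv L a b t * t⁻¹ ^ (2 * k + 1)| ≤
      (L.map fun μ => |mv μ a b| *
        ((k + wt μ - 1).factorial / 2 * ‖a - b‖⁻¹ ^ (2 * (k + wt μ)))).sum := by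
  have hc : 0 < ‖a - b‖ := norm_pos_iff.2 (sub_ne_zero.2 h)
  induction L with
  | nil =>
    have h0 : (fun t : ℝ => lv [] a b t * t⁻¹ ^ (2 * k + 1)) = fun _ => (0 : ℝ) := by
      funext t
      simp [lv]
    have h1 : (fun t : ℝ => |lv [] a b t * t⁻¹ ^ (2 * k + 1)|) = fun _ => (0 : ℝ) := by
      funext t
      simp [lv]
    refine ⟨?_, ?_, ?_⟩
    · rw [h0]
      exact integrableOn_zero
    · rw [h0]
      simp [li]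
    · rw [h1]
      simp
  | cons μ L ih =>
    obtain ⟨i1, i2, i3⟩ := ih fun ν hν => hL ν (List.mem_cons_of_mem _ hν)
    have hμ := hL μ (List.mem_cons_self ..)
    obtain ⟨g1, g2⟩ := Pool.Agent.H48.R9.time_gen hc (k + wt μ - 1)
    have hkey : ∀ t : ℝ, lv (μ :: L) a b t * t⁻¹ ^ (2 * k + 1) =
        mv μ a b * (t⁻¹ ^ (2 * (k + wt μ - 1) + 3) * Real.exp (-(‖a - b‖ ^ 2 / t ^ 2))) +
        lv L a b t * t⁻¹ ^ (2 * k + 1) := by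
      intro t
      have e1 : 2 * (k + wt μ - 1) + 3 = 2 * wt μ + (2 * k + 1) := by omega
      rw [e1, pow_add]
      unfold lv
      rw [List.map_cons, List.sum_cons]
      ring
    have hint : ∫ t in Ioi (0 : ℝ), t⁻¹ ^ (2 * (k + wt μ - 1) + 3) *
        Real.exp (-(‖a - b‖ ^ 2 / t ^ 2)) =
        (k + wt μ - 1).factorial / 2 * ‖a - b‖⁻¹ ^ (2 * (k + wt μ)) := by
      rw [g2]
      have e1 : 2 * (k + wt μ - 1) + 2 = 2 * (k + wt μ) := by omega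
      rw [e1, inv_pow]
      field_simp
    have j1 : IntegrableOn (fun t : ℝ => mv μ a b * (t⁻¹ ^ (2 * (k + wt μ - 1) + 3) *
        Real.exp (-(‖a - b‖ ^ 2 / t ^ 2)))) (Ioi 0) := g1.const_mul _
    have j2 : IntegrableOn (fun t : ℝ => lv (μ :: L) a b t * t⁻¹ ^ (2 * k + 1)) (Ioi 0) := by
      simp only [hkey]
      exact j1.add i1
    refine ⟨j2, ?_, ?_⟩
    · simp only [hkey]
      rw [integral_add j1 i1, i2, integral_const_mul, hint]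
      unfold li
      rw [List.map_cons, List.sum_cons]
    · rw [List.map_cons, List.sum_cons]
      have j3 : IntegrableOn (fun t : ℝ => |mv μ a b| * (t⁻¹ ^ (2 * (k + wt μ - 1) + 3) *
        Real.exp (-(‖a - b‖ ^ 2 / t ^ 2)))) (Ioi 0) := g1.const_mul _
      have j4 : IntegrableOn (fun t : ℝ => |lv L a b t * t⁻¹ ^ (2 * k + 1)|) (Ioi 0) := i1.abs
      calc ∫ t in Ioi (0 : ℝ), |lv (μ :: L) a b t * t⁻¹ ^ (2 * k + 1)|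
          ≤ ∫ t in Ioi (0 : ℝ), (|mv μ a b| * (t⁻¹ ^ (2 * (k + wt μ - 1) + 3) *
              Real.exp (-(‖a - b‖ ^ 2 / t ^ 2))) + |lv L a b t * t⁻¹ ^ (2 * k + 1)|) := by
            refine setIntegral_mono_on j2.abs (j3.add j4) measurableSet_Ioi fun t ht => ?_
            have ht' : 0 < t := ht
            have hn : 0 ≤ t⁻¹ ^ (2 * (k + wt μ - 1) + 3) * Real.exp (-(‖a - b‖ ^ 2 / t ^ 2)) := by
              positivity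
            show |lv (μ :: L) a b t * t⁻¹ ^ (2 * k + 1)| ≤ _
            rw [hkey t]
            refine (abs_add_le _ _).trans ?_
            rw [abs_mul (mv μ a b), abs_of_nonneg hn]
        _ = |mv μ a b| * ((k + wt μ - 1).factorial / 2 * ‖a - b‖⁻¹ ^ (2 * (k + wt μ))) +
              ∫ t in Ioi (0 : ℝ), |lv L a b t * t⁻¹ ^ (2 * k + 1)| := by
            rw [integral_add j3 j4, integral_const_mul, hint]
        _ ≤ _ := by gcongr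

theorem time_list {a b : X d} (h : a ≠ b) (k : ℕ) (L : List Mn) (hL : ∀ μ ∈ L, 1 ≤ k + wt μ) :
    IntegrableOn (fun t : ℝ => lv L a b t * t⁻¹ ^ (2 * k + 1)) (Ioi 0) ∧
    ∫ t in Ioi (0 : ℝ), lv L a b t * t⁻¹ ^ (2 * k + 1) = li k L a b :=
  ⟨(RGTim_abs h k L hL).1, (RGTim_abs h k L hL).2.1⟩

private theorem RGTim_term {N : ℕ} {A : At} (hm : 2 * A.m + A.k = A.j + N) {μ : Mn}
    (h2 : 2 * (A.k + μ.2.2.1 + μ.2.2.2) ≤ N) {z : X d} {p : X d × X d}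
    (hp : p.1 ≠ z ∧ p.2 ≠ z ∧ p.1 ≠ p.2) :
    |wa A (p.1 - z) (p.2 - z)| * (|mv μ (p.1 - z) (p.2 - z)| *
      ((A.k + wt μ - 1).factorial / 2 * ‖(p.1 - z) - (p.2 - z)‖⁻¹ ^ (2 * (A.k + wt μ)))) ≤
      (|(μ.1 : ℝ)| * (A.k + wt μ).factorial) * SN N (z, p) := by
  have hα : 0 < ‖p.1 - z‖ := norm_pos_iff.2 (sub_ne_zero.2 hp.1)
  have hβ : 0 < ‖p.2 - z‖ := norm_pos_iff.2 (sub_ne_zero.2 hp.2.1)
  have hab : (p.1 - z) - (p.2 - z) = p.1 - p.2 := by abel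
  have hc : 0 < ‖p.1 - p.2‖ := norm_pos_iff.2 (sub_ne_zero.2 hp.2.2)
  have hmv := RGTim_mv μ (p.1 - z) (p.2 - z)
  have hip := (RGTim_bd (p.1 - z) (p.2 - z)).1
  rw [hab] at hmv ⊢
  have hwa : |wa A (p.1 - z) (p.2 - z)| ≤ ‖p.1 - z‖⁻¹ ^ (2 * A.m) * ‖p.2 - z‖⁻¹ ^ (2 * A.m) *
      (‖p.1 - z‖ * ‖p.2 - z‖) ^ A.j := by
    unfold wa
    simp only [abs_mul, abs_pow, abs_inv, abs_norm]
    gcongr
  have hcore := RGTim_core (x := μ.2.1) (y := μ.2.2.1) (w := μ.2.2.2) hm h2 hα hβ hc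
  have hmono := monoN (inv_nonneg.2 hα.le) (inv_nonneg.2 hβ.le) (inv_nonneg.2 hc.le) h2
  have hf : ((A.k + wt μ - 1).factorial : ℝ) / 2 ≤ (A.k + wt μ).factorial := by
    have h3 : ((A.k + wt μ - 1).factorial : ℝ) ≤ (A.k + wt μ).factorial := by
      exact_mod_cast Nat.factorial_le (Nat.sub_le _ _)
    have h4 : (0 : ℝ) ≤ ((A.k + wt μ - 1).factorial : ℝ) := Nat.cast_nonneg _
    linarith
  have hSN : SN N (z, p) = ‖p.1 - z‖⁻¹ ^ N * ‖p.2 - z‖⁻¹ ^ N +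
      ‖p.1 - z‖⁻¹ ^ N * ‖p.1 - p.2‖⁻¹ ^ N + ‖p.2 - z‖⁻¹ ^ N * ‖p.1 - p.2‖⁻¹ ^ N := rfl
  have hwt : wt μ = μ.2.1 + μ.2.2.1 + 2 * μ.2.2.2 := rfl
  rw [← hwt] at hcore
  generalize (A.k + wt μ - 1).factorial = f1 at hf ⊢
  generalize (A.k + wt μ).factorial = f2 at hf ⊢
  calc |wa A (p.1 - z) (p.2 - z)| * (|mv μ (p.1 - z) (p.2 - z)| *
        ((f1 : ℝ) / 2 * ‖p.1 - p.2‖⁻¹ ^ (2 * (A.k + wt μ))))
      ≤ (‖p.1 - z‖⁻¹ ^ (2 * A.m) * ‖p.2 - z‖⁻¹ ^ (2 * A.m) *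
          (‖p.1 - z‖ * ‖p.2 - z‖) ^ A.j) * ((|(μ.1 : ℝ)| * ((‖p.1 - p.2‖ ^ 2) ^ μ.2.1 *
          (‖p.1 - z‖ * ‖p.2 - z‖) ^ μ.2.2.1 *
          ((‖p.1 - z‖ * ‖p.2 - z‖) * ‖p.1 - p.2‖ ^ 2) ^ μ.2.2.2)) *
        ((f2 : ℝ) * ‖p.1 - p.2‖⁻¹ ^ (2 * (A.k + wt μ)))) := by
        gcongr
    _ = (|(μ.1 : ℝ)| * f2) * ((‖p.1 - z‖⁻¹ ^ (2 * A.m) * ‖p.2 - z‖⁻¹ ^ (2 * A.m) *
          (‖p.1 - z‖ * ‖p.2 - z‖) ^ A.j) * (((‖p.1 - p.2‖ ^ 2) ^ μ.2.1 *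
          (‖p.1 - z‖ * ‖p.2 - z‖) ^ μ.2.2.1 *
          ((‖p.1 - z‖ * ‖p.2 - z‖) * ‖p.1 - p.2‖ ^ 2) ^ μ.2.2.2) *
          ‖p.1 - p.2‖⁻¹ ^ (2 * (A.k + wt μ)))) := by
        ac_rfl
    _ ≤ (|(μ.1 : ℝ)| * f2) * SN N (z, p) := by
        rw [hcore, hSN]
        gcongr

theorem slg {N : ℕ} {A : At} (hm : 2 * A.m + A.k = A.j + N)
    (hL : ∀ μ ∈ A.L, 1 ≤ A.k + wt μ ∧ 2 * (A.k + μ.2.2.1 + μ.2.2.2) ≤ N) {z : X d}
    {p : X d × X d} (hp : p.1 ≠ z ∧ p.2 ≠ z ∧ p.1 ≠ p.2) :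
    IntegrableOn (fun t : ℝ => fg A z p t) (Ioi 0) ∧
    ∫ t in Ioi (0 : ℝ), fg A z p t =
      wa A (p.1 - z) (p.2 - z) * li A.k A.L (p.1 - z) (p.2 - z) ∧
    ∫ t in Ioi (0 : ℝ), ‖fg A z p t‖ ≤ bd A.k A.L * SN N (z, p) := by
  have hab : p.1 - z ≠ p.2 - z := fun h => hp.2.2 (sub_left_injective h)
  obtain ⟨r1, r2, r3⟩ := RGTim_abs hab A.k A.L fun μ hμ => (hL μ hμ).1
  refine ⟨?_, ?_, ?_⟩
  · exact r1.const_mul _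
  · unfold fg
    rw [integral_const_mul, r2]
  · have e1 : ∀ t : ℝ, ‖fg A z p t‖ = |wa A (p.1 - z) (p.2 - z)| *
        |lv A.L (p.1 - z) (p.2 - z) t * t⁻¹ ^ (2 * A.k + 1)| := by
      intro t
      unfold fg
      rw [Real.norm_eq_abs, abs_mul]
    simp only [e1]
    rw [integral_const_mul]
    refine (mul_le_mul_of_nonneg_left r3 (abs_nonneg _)).trans ?_
    unfold bd
    rw [← List.sum_map_mul_left, ← List.sum_map_mul_right]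
    exact List.sum_le_sum fun μ hμ => RGTim_term hm (hL μ hμ).2 hp

end Pool.Agent.H48.RG
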