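import Pool.Agent.H48.RG.EnA
import Pool.Agent.H48.RG.Tim

/-!
Template: R9/EnC.lean (L9_total, W9_total), general N, with the identity as a hypothesis.  |WN T a b| ≤ (∑ |c| bd) SN by slg
(norm_integral_le_integral_norm) for pairwise different points.
-/

set_option autoImplicit false

open MeasureTheory Filter Topology Metric Set
open scoped RealInnerProductSpace ENNReal

namespace Pool.Agent.H48.RG

open Pool.Agent.RZ Pool.Agent.H1.LD Pool.Agent.H48.R7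

variable {d : ℕ}

private theorem RGEnC_le {N : ℕ} (hN : 1 ≤ N) (p q : X d) : ‖‖p - q‖⁻¹ ^ N‖ₑ ≤ ‖p - q‖ₑ⁻¹ ^ N := by
  rcases eq_or_ne p q with rfl | h
  · have hN0 : N ≠ 0 := by omega
    simp [hN0]
  · have h1 : 0 < ‖p - q‖ := norm_pos_iff.2 (sub_ne_zero.2 h)
    rw [Real.enorm_eq_ofReal (by positivity), ENNReal.ofReal_pow (by positivity),
      ENNReal.ofReal_inv_of_pos h1, ofReal_norm]

/-- exchange of the first two variables -/
private theorem RGEnC_sig {ν : Measure (X d)} [IsFiniteMeasure ν] (f : X d × (X d × X d) → ℝ)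
    (hf : Integrable f (ν.prod (ν.prod ν))) :
    ∫ q, f q ∂(ν.prod (ν.prod ν)) =
      ∫ q : X d × (X d × X d), f (q.2.1, (q.1, q.2.2)) ∂(ν.prod (ν.prod ν)) ∧
    Integrable (fun q : X d × (X d × X d) => f (q.2.1, (q.1, q.2.2))) (ν.prod (ν.prod ν)) := by
  have m1 : MeasurePreserving (MeasurableEquiv.prodAssoc : (X d × X d) × X d ≃ᵐ X d × X d × X d)
      ((ν.prod ν).prod ν) (ν.prod (ν.prod ν)) := measurePreserving_prodAssoc ν ν ν
  have m2 : MeasurePreserving (Prod.map Prod.swap id : (X d × X d) × X d → (X d × X d) × X d)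
      ((ν.prod ν).prod ν) ((ν.prod ν).prod ν) :=
    Measure.measurePreserving_swap.prod (MeasurePreserving.id ν)
  have m3 := m1.comp (m2.comp m1.symm)
  have e := m3.map_eq
  have hm : Measurable fun q : X d × (X d × X d) => (q.2.1, (q.1, q.2.2)) := by fun_prop
  have e' : Measure.map (fun q : X d × (X d × X d) => (q.2.1, (q.1, q.2.2)))
      (ν.prod (ν.prod ν)) = ν.prod (ν.prod ν) := e
  refine ⟨?_, ?_⟩
  · conv_lhs => rw [← e']
    rw [integral_map hm.aemeasurable]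
    rw [e']
    exact hf.aestronglyMeasurable
  · exact m3.integrable_comp_of_integrable hf

/-- exchange of the last two variables -/
private theorem RGEnC_tau {ν : Measure (X d)} [IsFiniteMeasure ν] (f : X d × (X d × X d) → ℝ)
    (hf : Integrable f (ν.prod (ν.prod ν))) :
    ∫ q, f q ∂(ν.prod (ν.prod ν)) =
      ∫ q : X d × (X d × X d), f (q.1, (q.2.2, q.2.1)) ∂(ν.prod (ν.prod ν)) ∧
    Integrable (fun q : X d × (X d × X d) => f (q.1, (q.2.2, q.2.1))) (ν.prod (ν.prod ν)) := by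
  have m2 : MeasurePreserving (Prod.map id Prod.swap : X d × (X d × X d) → X d × (X d × X d))
      (ν.prod (ν.prod ν)) (ν.prod (ν.prod ν)) :=
    (MeasurePreserving.id ν).prod Measure.measurePreserving_swap
  have e := m2.map_eq
  have hm : Measurable fun q : X d × (X d × X d) => (q.1, (q.2.2, q.2.1)) := by fun_prop
  have e' : Measure.map (fun q : X d × (X d × X d) => (q.1, (q.2.2, q.2.1)))
      (ν.prod (ν.prod ν)) = ν.prod (ν.prod ν) := e
  refine ⟨?_, ?_⟩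
  · conv_lhs => rw [← e']
    rw [integral_map hm.aemeasurable]
    rw [e']
    exact hf.aestronglyMeasurable
  · exact m2.integrable_comp_of_integrable hf

/-- exchange of the first and the last variable -/
private theorem RGEnC_rho {ν : Measure (X d)} [IsFiniteMeasure ν] (f : X d × (X d × X d) → ℝ)
    (hf : Integrable f (ν.prod (ν.prod ν))) :
    ∫ q, f q ∂(ν.prod (ν.prod ν)) =
      ∫ q : X d × (X d × X d), f (q.2.2, (q.2.1, q.1)) ∂(ν.prod (ν.prod ν)) ∧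
    Integrable (fun q : X d × (X d × X d) => f (q.2.2, (q.2.1, q.1))) (ν.prod (ν.prod ν)) := by
  obtain ⟨a1, a2⟩ := RGEnC_tau f hf
  obtain ⟨b1, b2⟩ := RGEnC_sig _ a2
  obtain ⟨c1, c2⟩ := RGEnC_tau _ b2
  exact ⟨a1.trans (b1.trans c1), c2⟩

private theorem RGEnC_L {N : ℕ} {a b : X d} : |LN N a b| ≤ ‖a‖⁻¹ ^ N * ‖b‖⁻¹ ^ N := by
  unfold LN
  rcases eq_or_ne a 0 with rfl | ha
  · have h0 : (0 : ℝ) ≤ ‖(0 : X d)‖⁻¹ ^ N * ‖b‖⁻¹ ^ N := by positivity
    simpa using h0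
  rcases eq_or_ne b 0 with rfl | hb
  · have h0 : (0 : ℝ) ≤ ‖a‖⁻¹ ^ N * ‖(0 : X d)‖⁻¹ ^ N := by positivity
    simpa using h0
  have h1 : 0 < ‖a‖ := norm_pos_iff.2 ha
  have h2 : 0 < ‖b‖ := norm_pos_iff.2 hb
  rw [abs_mul, abs_of_nonneg (by positivity : (0 : ℝ) ≤ ‖a‖⁻¹ ^ (N + 1) * ‖b‖⁻¹ ^ (N + 1))]
  calc _ ≤ ‖a‖⁻¹ ^ (N + 1) * ‖b‖⁻¹ ^ (N + 1) * (‖a‖ * ‖b‖) := by
        gcongr
        exact abs_real_inner_le_norm _ _
    _ = (‖a‖⁻¹ * ‖a‖) * (‖b‖⁻¹ * ‖b‖) * (‖a‖⁻¹ ^ N * ‖b‖⁻¹ ^ N) := by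
        rw [pow_succ, pow_succ]
        ring
    _ = _ := by
        rw [inv_mul_cancel₀ h1.ne', inv_mul_cancel₀ h2.ne']
        ring

private theorem RGEnC_Li {N : ℕ} {ν : Measure (X d)} (h : NiceN N ν) :
    Integrable (fun q : X d × (X d × X d) => LN N (q.2.1 - q.1) (q.2.2 - q.1))
      (ν.prod (ν.prod ν)) := by
  refine (SN_int h).mono' (by unfold LN; fun_prop) (Eventually.of_forall fun q => ?_)
  rw [Real.norm_eq_abs]
  refine RGEnC_L.trans ?_
  unfold SN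
  have h1 : (0 : ℝ) ≤ ‖q.2.1 - q.1‖⁻¹ ^ N * ‖q.2.1 - q.2.2‖⁻¹ ^ N := by positivity
  have h2 : (0 : ℝ) ≤ ‖q.2.2 - q.1‖⁻¹ ^ N * ‖q.2.1 - q.2.2‖⁻¹ ^ N := by positivity
  linarith

private theorem RGEnC_meas {ι Y : Type} [MeasurableSpace Y] (T : List ι) (f : ι → Y → ℝ)
    (hf : ∀ i, Measurable (f i)) : Measurable fun q => (T.map fun i => f i q).sum := by
  induction T with
  | nil => simp
  | cons a T ih =>
    simp only [List.map_cons, List.sum_cons]
    exact (hf a).add ih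

private theorem RGEnC_sum {ι : Type} (T : List ι) (f g : ι → ℝ) (s : ℝ)
    (h : ∀ i ∈ T, |f i| ≤ g i * s) : |(T.map f).sum| ≤ (T.map g).sum * s := by
  induction T with
  | nil => simp
  | cons a T ih =>
    simp only [List.map_cons, List.sum_cons]
    refine (abs_add_le _ _).trans ?_
    rw [add_mul]
    exact add_le_add (h a (by simp)) (ih fun i hi => h i (by simp [hi]))

private theorem RGEnC_Wm (T : List At) :
    Measurable fun q : X d × (X d × X d) => WN T (q.2.1 - q.1) (q.2.2 - q.1) := by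
  unfold WN
  refine RGEnC_meas T (fun A (q : X d × (X d × X d)) => (A.c : ℝ) *
    (wa A (q.2.1 - q.1) (q.2.2 - q.1) * li A.k A.L (q.2.1 - q.1) (q.2.2 - q.1))) fun A => ?_
  have h1 : Measurable fun q : X d × (X d × X d) => wa A (q.2.1 - q.1) (q.2.2 - q.1) := by
    unfold wa
    fun_prop
  have h2 : Measurable fun q : X d × (X d × X d) => li A.k A.L (q.2.1 - q.1) (q.2.2 - q.1) := by
    unfold li
    refine RGEnC_meas A.L (fun μ (q : X d × (X d × X d)) => mv μ (q.2.1 - q.1) (q.2.2 - q.1) *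
      ((A.k + wt μ - 1).factorial / 2 *
        ‖(q.2.1 - q.1) - (q.2.2 - q.1)‖⁻¹ ^ (2 * (A.k + wt μ)))) fun μ => ?_
    unfold mv prg
    fun_prop
  exact (h1.mul h2).const_mul _

private theorem RGEnC_Wi {N : ℕ} (hN : 1 ≤ N) {T : List At} (hA : ∀ A ∈ T, OK d N A)
    {ν : Measure (X d)} (h : NiceN N ν) :
    Integrable (fun q : X d × (X d × X d) => WN T (q.2.1 - q.1) (q.2.2 - q.1))
      (ν.prod (ν.prod ν)) := by
  refine ((SN_int h).const_mul (T.map fun A => |(A.c : ℝ)| * bd A.k A.L).sum).mono'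
    (RGEnC_Wm T).aestronglyMeasurable ?_
  filter_upwards [aeN hN h] with q hq
  rw [Real.norm_eq_abs]
  unfold WN
  refine RGEnC_sum T _ _ _ fun A hAT => ?_
  have hok := hA A hAT
  obtain ⟨k1, k2, k3⟩ := slg (z := q.1) (p := q.2) hok.hm hok.hL hq
  have k4 : |wa A (q.2.1 - q.1) (q.2.2 - q.1) * li A.k A.L (q.2.1 - q.1) (q.2.2 - q.1)| ≤
      bd A.k A.L * SN N q := by
    rw [← k2, ← Real.norm_eq_abs]
    exact (norm_integral_le_integral_norm _).trans k3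
  rw [abs_mul, mul_assoc]
  exact mul_le_mul_of_nonneg_left k4 (abs_nonneg _)

theorem LN_total {N : ℕ} (hN : 1 ≤ N) {ν : Measure (X d)} (h : NiceN N ν) :
    Integrable (fun q : X d × (X d × X d) => LN N (q.2.1 - q.1) (q.2.2 - q.1))
      (ν.prod (ν.prod ν)) ∧
    ∫ q : X d × (X d × X d), LN N (q.2.1 - q.1) (q.2.2 - q.1) ∂(ν.prod (ν.prod ν)) =
      ∫ z, ‖FN N ν z‖ ^ 2 ∂ν := by
  have := h.1
  refine ⟨RGEnC_Li h, ?_⟩
  have hF' := RGEnC_Li h
  rw [integral_prod _ hF']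
  refine integral_congr_ae ?_
  filter_upwards [hF'.prod_right_ae] with z hz
  have hu : Integrable (fun x => ‖z - x‖⁻¹ ^ (N + 1) • (z - x)) ν := by
    refine ⟨by fun_prop, ?_⟩
    obtain ⟨_, C, hC⟩ := h
    have hlt : ∫⁻ x, ‖x - z‖ₑ⁻¹ ^ N ∂ν < ∞ := lt_of_le_of_lt (hC z) ENNReal.ofReal_lt_top
    have hle : ∫⁻ x, ‖‖z - x‖⁻¹ ^ (N + 1) • (z - x)‖ₑ ∂ν ≤ ∫⁻ x, ‖x - z‖ₑ⁻¹ ^ N ∂ν := by
      refine lintegral_mono fun x => ?_
      refine le_trans (le_of_eq ?_) (RGEnC_le hN x z)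
      rw [← enorm_norm, norm_smul, Real.norm_of_nonneg (by positivity), norm_sub_rev z x]
      congr 1
      rcases eq_or_ne x z with rfl | hxz
      · have hN0 : N ≠ 0 := by omega
        simp [hN0]
      · have hpos : 0 < ‖x - z‖ := norm_pos_iff.2 (sub_ne_zero.2 hxz)
        rw [pow_succ, mul_assoc, inv_mul_cancel₀ hpos.ne', mul_one]
    exact lt_of_le_of_lt hle hlt
  rw [integral_prod _ hz]
  have e1 : ∀ x x' : X d, LN N (x - z) (x' - z) =
      ⟪‖z - x‖⁻¹ ^ (N + 1) • (z - x), ‖z - x'‖⁻¹ ^ (N + 1) • (z - x')⟫ := by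
    intro x x'
    unfold LN
    rw [inner_smul_left, inner_smul_right, norm_sub_rev x z, norm_sub_rev x' z,
      ← neg_sub z x, ← neg_sub z x', inner_neg_neg]
    simp only [conj_trivial]
    ring
  simp only [e1]
  have e2 : ∀ x : X d, (∫ x', ⟪‖z - x‖⁻¹ ^ (N + 1) • (z - x), ‖z - x'‖⁻¹ ^ (N + 1) • (z - x')⟫ ∂ν) =
      ⟪‖z - x‖⁻¹ ^ (N + 1) • (z - x), FN N ν z⟫ := by
    intro x
    rw [integral_inner hu]
    rfl
  simp only [e2]
  have e3 : (∫ x, ⟪‖z - x‖⁻¹ ^ (N + 1) • (z - x), FN N ν z⟫ ∂ν) = ⟪FN N ν z, FN N ν z⟫ := by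
    simp only [real_inner_comm (FN N ν z)]
    rw [integral_inner hu]
    rfl
  rw [e3, real_inner_self_eq_norm_sq]

theorem WN_total {N : ℕ} (hN : 1 ≤ N) {T : List At} (hA : ∀ A ∈ T, OK d N A)
    (hid : ∀ a b : X d, a ≠ 0 → b ≠ 0 → a ≠ b →
      WN T a b + WN T (-a) (b - a) + WN T (a - b) (-b) =
        LN N a b + LN N (-a) (b - a) + LN N (a - b) (-b)) {ν : Measure (X d)} (h : NiceN N ν) :
    Integrable (fun q : X d × (X d × X d) => WN T (q.2.1 - q.1) (q.2.2 - q.1))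
      (ν.prod (ν.prod ν)) ∧
    ∫ q : X d × (X d × X d), WN T (q.2.1 - q.1) (q.2.2 - q.1) ∂(ν.prod (ν.prod ν)) =
      ∫ z, ‖FN N ν z‖ ^ 2 ∂ν := by
  have := h.1
  refine ⟨RGEnC_Wi hN hA h, ?_⟩
  rw [← (LN_total hN h).2]
  have w0 := RGEnC_Wi hN hA h
  have l0 := RGEnC_Li h
  obtain ⟨w1, w2⟩ := RGEnC_sig _ w0
  obtain ⟨w3, w4⟩ := RGEnC_rho _ w0
  obtain ⟨l1, l2⟩ := RGEnC_sig _ l0
  obtain ⟨l3, l4⟩ := RGEnC_rho _ l0
  simp only at w1 w2 w3 w4 l1 l2 l3 l4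
  have hW := integral_add (w0.add w2) w4
  have hW' := integral_add w0 w2
  have hL := integral_add (l0.add l2) l4
  have hL' := integral_add l0 l2
  have hae : (fun q : X d × (X d × X d) => (WN T (q.2.1 - q.1) (q.2.2 - q.1) +
      WN T (q.1 - q.2.1) (q.2.2 - q.2.1)) + WN T (q.2.1 - q.2.2) (q.1 - q.2.2))
      =ᵐ[ν.prod (ν.prod ν)]
      fun q => (LN N (q.2.1 - q.1) (q.2.2 - q.1) + LN N (q.1 - q.2.1) (q.2.2 - q.2.1)) +
        LN N (q.2.1 - q.2.2) (q.1 - q.2.2) := by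
    filter_upwards [aeN hN h] with q hq
    obtain ⟨h1, h2, h3⟩ := hq
    have hab : q.2.1 - q.1 ≠ q.2.2 - q.1 := fun e => h3 (sub_left_injective e)
    have k := hid _ _ (sub_ne_zero.2 h1) (sub_ne_zero.2 h2) hab
    rw [neg_sub, neg_sub, sub_sub_sub_cancel_right, sub_sub_sub_cancel_right] at k
    exact k
  have hI := integral_congr_ae hae
  simp only [Pi.add_apply] at hW hW' hL hL'
  rw [hW, hL, hW', hL', ← w1, ← w3, ← l1, ← l3] at hI
  linarith

end Pool.Agent.H48.RG
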