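import Pool.Agent.H48.RG.Pos
import Pool.Agent.H48.RG.EnC
import Pool.Agent.H1.CG.D0

/-!
A list certificate is a certificate in the sense of `Pool.Agent.H1.CG.Cert`.
-/

set_option autoImplicit false

open MeasureTheory Filter Topology Metric Set
open scoped RealInnerProductSpace ENNReal

namespace Pool.Agent.H48.RG

open Pool.Agent.RZ Pool.Agent.H1.LD Pool.Agent.H48.R7 Pool.Agent.H1.CG

variable {d : ℕ}

theorem RGCertG_mv (μ : Mn) : Measurable fun p : X d × X d => mv μ p.1 p.2 := by
  unfold mv prg
  have h1 : Measurable fun p : X d × X d => ⟪p.1, p.2⟫ := measurable_fst.inner measurable_snd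
  have h2 : Measurable fun p : X d × X d => ⟪p.1, p.1 - p.2⟫ :=
    measurable_fst.inner (measurable_fst.sub measurable_snd)
  have h3 : Measurable fun p : X d × X d => ⟪p.2, p.2 - p.1⟫ :=
    measurable_snd.inner (measurable_snd.sub measurable_fst)
  have h4 : Measurable fun p : X d × X d => ‖p.1 - p.2‖ ^ 2 :=
    (measurable_fst.sub measurable_snd).norm.pow_const 2
  exact ((((h4.pow_const _).const_mul _).mul (h1.pow_const _))).mul ((h2.mul h3).pow_const _)

theorem RGCertG_li (k : ℕ) (L : List Mn) : Measurable fun p : X d × X d => li k L p.1 p.2 := by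
  unfold li
  induction L with
  | nil => simp
  | cons μ L ih =>
    simp only [List.map_cons, List.sum_cons]
    exact ((RGCertG_mv μ).mul (((measurable_fst.sub measurable_snd).norm.inv.pow_const _).const_mul
      _)).add ih

theorem RGCertG_W (T : List At) : Measurable fun p : X d × X d => WN T p.1 p.2 := by
  unfold WN
  induction T with
  | nil => simp
  | cons A T ih =>
    simp only [List.map_cons, List.sum_cons]
    refine Measurable.add ?_ ih
    refine Measurable.const_mul (Measurable.mul ?_ (RGCertG_li A.k A.L)) _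
    unfold wa
    have h1 : Measurable fun p : X d × X d => ⟪p.1, p.2⟫ := measurable_fst.inner measurable_snd
    exact ((measurable_fst.norm.inv.pow_const _).mul (measurable_snd.norm.inv.pow_const _)).mul
      (h1.pow_const _)

theorem RGCertG_i1 (a b : X d) : li 1 L1 a b = i1 a b := by
  unfold li L1 mv i1 wt prg
  simp only [List.map_cons, List.map_nil, List.sum_cons, List.sum_nil]
  rcases eq_or_ne ‖a - b‖ 0 with h | h
  · rw [h]
    norm_num
  · norm_num [Nat.factorial]
    field_simp
    ring

theorem RGCertG_sum {ι : Type} (T : List ι) (f g : ι → ℝ) (s : ℝ)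
    (h : ∀ i ∈ T, |f i| ≤ g i * s) : |(T.map f).sum| ≤ (T.map g).sum * s := by
  induction T with
  | nil => simp
  | cons a T ih =>
    simp only [List.map_cons, List.sum_cons]
    refine (abs_add_le _ _).trans ?_
    rw [add_mul]
    exact add_le_add (h a (by simp)) (ih fun i hi => h i (by simp [hi]))

theorem certG {l : ℕ} {c : ℚ} (hc : 0 < c) {T : List At}
    (hA : ∀ A ∈ A1 c (l + 1) :: T, OK d (2 * l + 3) A)
    (hid : ∀ a b : X d, a ≠ 0 → b ≠ 0 → a ≠ b →
      WN (A1 c (l + 1) :: T) a b + WN (A1 c (l + 1) :: T) (-a) (b - a) +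
        WN (A1 c (l + 1) :: T) (a - b) (-b) =
        LN (2 * l + 3) a b + LN (2 * l + 3) (-a) (b - a) + LN (2 * l + 3) (a - b) (-b)) :
    Cert l (WN (A1 c (l + 1) :: T) : X d → X d → ℝ) := by
  have hc' : (0 : ℝ) < c := by exact_mod_cast hc
  refine ⟨RGCertG_W _, ⟨((A1 c (l + 1) :: T).map fun A => |(A.c : ℝ)| * bd A.k A.L).sum, ?_⟩, ?_,
    ⟨c, hc', ?_⟩⟩
  · intro a b ha hb hab
    have e : SK l a b = SN (2 * l + 3) ((0 : X d), (a, b)) := by
      unfold SK SN
      simp only [sub_zero]
    rw [e]
    unfold WN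
    refine RGCertG_sum _ _ _ _ fun A hAT => ?_
    have hok := hA A hAT
    obtain ⟨k1, k2, k3⟩ := slg (z := (0 : X d)) (p := (a, b)) hok.hm hok.hL ⟨ha, hb, hab⟩
    have k4 : |wa A a b * li A.k A.L a b| ≤ bd A.k A.L * SN (2 * l + 3) ((0 : X d), (a, b)) := by
      simp only [sub_zero] at k2
      rw [← k2, ← Real.norm_eq_abs]
      exact (norm_integral_le_integral_norm _).trans k3
    rw [abs_mul, mul_assoc]
    exact mul_le_mul_of_nonneg_left k4 (abs_nonneg _)
  · exact hid
  · intro ν hν ω hω h1
    have hν' : NiceN (2 * l + 3) ν := hν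
    have h2 := (cert_fix (by omega) hν' hA hω h1 (0 : X d)).2.2
    simp only [sub_zero] at h2
    have e : ∀ a b : X d, wa (A1 c (l + 1)) a b * li (A1 c (l + 1)).k (A1 c (l + 1)).L a b =
        ZK l a b := by
      intro a b
      have e1 : li (A1 c (l + 1)).k (A1 c (l + 1)).L a b = i1 a b := RGCertG_i1 a b
      rw [e1]
      unfold wa ZK A1
      simp only [pow_zero, mul_one]
      rfl
    simp only [e] at h2
    exact h2

end Pool.Agent.H48.RG
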