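import Pool.Agent.H48.RG.Fix

/-!
cert_fix: sum of fix_pos over the list (induction on T), the first atom kept.
-/

set_option autoImplicit false

open MeasureTheory Filter Topology Metric Set
open scoped RealInnerProductSpace ENNReal

namespace Pool.Agent.H48.RG

open Pool.Agent.RZ Pool.Agent.H1.LD Pool.Agent.H48.R7

variable {d : ℕ}

private theorem RGPos_cons (A : At) (T : List At) (a b : X d) :
    WN (A :: T) a b = (A.c : ℝ) * (wa A a b * li A.k A.L a b) + WN T a b := by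
  rw [WN, WN, List.map_cons, List.sum_cons]

private theorem RGPos_step {N : ℕ} (hN : 1 ≤ N) {ν : Measure (X d)} (h : NiceN N ν) {A : At}
    {T : List At} (hA : OK d N A) {ω : X d → ℝ} (hω : Measurable ω) (h1 : ∀ x, |ω x| ≤ 1) (z : X d)
    (hT : Integrable (fun p : X d × X d => WN T (p.1 - z) (p.2 - z) * (ω p.1 * ω p.2))
      (ν.prod ν)) :
    Integrable (fun p : X d × X d => WN (A :: T) (p.1 - z) (p.2 - z) * (ω p.1 * ω p.2))
      (ν.prod ν) ∧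
    ∫ p, WN (A :: T) (p.1 - z) (p.2 - z) * (ω p.1 * ω p.2) ∂(ν.prod ν) =
      (A.c : ℝ) * ∫ p, wa A (p.1 - z) (p.2 - z) * li A.k A.L (p.1 - z) (p.2 - z) *
        (ω p.1 * ω p.2) ∂(ν.prod ν) +
      ∫ p, WN T (p.1 - z) (p.2 - z) * (ω p.1 * ω p.2) ∂(ν.prod ν) := by
  obtain ⟨h2, _⟩ := fix_pos hN h hA hω h1 z
  have e : (fun p : X d × X d => WN (A :: T) (p.1 - z) (p.2 - z) * (ω p.1 * ω p.2)) =
      fun p => (A.c : ℝ) * (wa A (p.1 - z) (p.2 - z) * li A.k A.L (p.1 - z) (p.2 - z) *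
        (ω p.1 * ω p.2)) + WN T (p.1 - z) (p.2 - z) * (ω p.1 * ω p.2) := by
    funext p
    rw [RGPos_cons]
    ring
  rw [e]
  exact ⟨(h2.const_mul _).add hT, by rw [integral_add (h2.const_mul _) hT, integral_const_mul]⟩

private theorem RGPos_list {N : ℕ} (hN : 1 ≤ N) {ν : Measure (X d)} (h : NiceN N ν) {ω : X d → ℝ}
    (hω : Measurable ω) (h1 : ∀ x, |ω x| ≤ 1) (z : X d) :
    ∀ T : List At, (∀ A ∈ T, OK d N A) →
      Integrable (fun p : X d × X d => WN T (p.1 - z) (p.2 - z) * (ω p.1 * ω p.2)) (ν.prod ν) ∧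
      0 ≤ ∫ p, WN T (p.1 - z) (p.2 - z) * (ω p.1 * ω p.2) ∂(ν.prod ν) := by
  intro T
  induction T with
  | nil =>
    intro _
    have e : (fun p : X d × X d => WN [] (p.1 - z) (p.2 - z) * (ω p.1 * ω p.2)) = fun _ => 0 := by
      funext p
      rw [WN, List.map_nil, List.sum_nil, zero_mul]
    rw [e]
    exact ⟨integrable_zero _ _ _, by rw [integral_zero]⟩
  | cons A T ih =>
    intro hA
    obtain ⟨h2, h3⟩ := ih fun B hB => hA B (List.mem_cons_of_mem _ hB)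
    have hA0 := hA A List.mem_cons_self
    obtain ⟨h4, h5⟩ := RGPos_step hN h hA0 hω h1 z h2
    refine ⟨h4, ?_⟩
    rw [h5]
    have hc : (0 : ℝ) ≤ (A.c : ℝ) := by exact_mod_cast hA0.hc
    exact add_nonneg (mul_nonneg hc (fix_pos hN h hA0 hω h1 z).2) h3

theorem cert_fix {N : ℕ} (hN : 1 ≤ N) {ν : Measure (X d)} (h : NiceN N ν) {A₀ : At} {T : List At}
    (hA : ∀ A ∈ A₀ :: T, OK d N A) {ω : X d → ℝ} (hω : Measurable ω) (h1 : ∀ x, |ω x| ≤ 1)
    (z : X d) :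
    Integrable (fun p : X d × X d => WN (A₀ :: T) (p.1 - z) (p.2 - z) * (ω p.1 * ω p.2))
      (ν.prod ν) ∧
    Integrable (fun p : X d × X d => wa A₀ (p.1 - z) (p.2 - z) *
      li A₀.k A₀.L (p.1 - z) (p.2 - z) * (ω p.1 * ω p.2)) (ν.prod ν) ∧
    (A₀.c : ℝ) * ∫ p, wa A₀ (p.1 - z) (p.2 - z) * li A₀.k A₀.L (p.1 - z) (p.2 - z) *
      (ω p.1 * ω p.2) ∂(ν.prod ν) ≤
    ∫ p, WN (A₀ :: T) (p.1 - z) (p.2 - z) * (ω p.1 * ω p.2) ∂(ν.prod ν) := by
  obtain ⟨h2, h3⟩ := RGPos_list hN h hω h1 z T fun B hB => hA B (List.mem_cons_of_mem _ hB)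
  have hA0 := hA A₀ List.mem_cons_self
  obtain ⟨h4, h5⟩ := RGPos_step hN h hA0 hω h1 z h2
  refine ⟨h4, (fix_pos hN h hA0 hω h1 z).1, ?_⟩
  rw [h5]
  linarith

end Pool.Agent.H48.RG
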