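import Pool.Agent.H48.RG.EnC
import Pool.Agent.H48.RG.Pos

/-!
energyN: by WN_total and Fubini ∫‖F‖² = ∫_z ∫_p WN ≥ c ∫_z ∫_p wa li (cert_fix with ω = 1) for A₀ = A1 c M, and
∫_p wa li = ∫_t ∫_p fg (fix_int, slg, Fubini), so ∫⁻_z ∫⁻_t QN ofReal t⁻¹ = ofReal (∫_z ∫_p wa li) (QN_double; the integrand
∫_p fg is ≥ 0 by fg_double and integrable in t; measurability in z from Fubini).  Template: R9/EnD.lean.
-/

set_option autoImplicit false

open MeasureTheory Filter Topology Metric Set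
open scoped RealInnerProductSpace ENNReal

namespace Pool.Agent.H48.RG

open Pool.Agent.RZ Pool.Agent.H1.LD Pool.Agent.H48.R7

variable {d : ℕ}

private theorem RGEnD_fix {M : ℕ} {c : ℚ} (hA : OK d (2 * M + 1) (A1 c M)) {ν : Measure (X d)}
    (h : NiceN (2 * M + 1) ν) (z : X d) :
    (∫⁻ t in Ioi (0 : ℝ), QN M ν z t * ENNReal.ofReal t⁻¹) =
      ENNReal.ofReal (∫ p : X d × X d, wa (A1 c M) (p.1 - z) (p.2 - z) *
        li (A1 c M).k (A1 c M).L (p.1 - z) (p.2 - z) ∂(ν.prod ν)) := by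
  have := h.1
  have hI : Integrable (fun q : (X d × X d) × ℝ => fg (A1 c M) z q.1 q.2)
      ((ν.prod ν).prod (volume.restrict (Ioi 0))) := by
    have h1 := fix_int (by omega) h hA (ω := fun _ => (1 : ℝ)) measurable_const
      (fun _ => by simp) z
    simpa only [mul_one] using h1
  have hpos : ∀ t : ℝ, 0 < t → 0 ≤ ∫ p, fg (A1 c M) z p t ∂(ν.prod ν) := by
    intro t ht
    have h1 := (fg_double h hA (ω := fun _ => (1 : ℝ)) measurable_const
      (fun _ => by simp) z ht).2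
    simpa only [mul_one] using h1
  have hnn : 0 ≤ᵐ[volume.restrict (Ioi (0 : ℝ))] fun t => ∫ p, fg (A1 c M) z p t ∂(ν.prod ν) := by
    filter_upwards [ae_restrict_mem measurableSet_Ioi] with t ht
    exact hpos t ht
  have e1 : (∫ t in Ioi (0 : ℝ), ∫ p, fg (A1 c M) z p t ∂(ν.prod ν)) =
      ∫ p, (∫ t in Ioi (0 : ℝ), fg (A1 c M) z p t) ∂(ν.prod ν) :=
    (integral_prod_symm _ hI).symm.trans (integral_prod _ hI)
  have e2 : (∫ p, (∫ t in Ioi (0 : ℝ), fg (A1 c M) z p t) ∂(ν.prod ν)) =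
      ∫ p : X d × X d, wa (A1 c M) (p.1 - z) (p.2 - z) *
        li (A1 c M).k (A1 c M).L (p.1 - z) (p.2 - z) ∂(ν.prod ν) := by
    refine integral_congr_ae ?_
    filter_upwards [ae_fix (by omega) h z] with p hp
    exact (slg hA.hm hA.hL hp).2.1
  rw [← e2, ← e1, ofReal_integral_eq_lintegral_ofReal hI.integral_prod_right hnn]
  refine setLIntegral_congr_fun measurableSet_Ioi fun t ht => ?_
  exact QN_double (by have h4 := hA.hj; simp only [A1] at h4; omega) h c z ht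

theorem energyN {M : ℕ} {c : ℚ} (hc : 0 < c) {T : List At}
    (hA : ∀ A ∈ A1 c M :: T, OK d (2 * M + 1) A)
    (hid : ∀ a b : X d, a ≠ 0 → b ≠ 0 → a ≠ b →
      WN (A1 c M :: T) a b + WN (A1 c M :: T) (-a) (b - a) + WN (A1 c M :: T) (a - b) (-b) =
        LN (2 * M + 1) a b + LN (2 * M + 1) (-a) (b - a) + LN (2 * M + 1) (a - b) (-b))
    {ν : Measure (X d)} (h : NiceN (2 * M + 1) ν) :
    ∫⁻ z, (∫⁻ t in Ioi (0 : ℝ), QN M ν z t * ENNReal.ofReal t⁻¹) ∂ν ≤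
      ENNReal.ofReal ((c : ℝ)⁻¹ * ∫ z, ‖FN (2 * M + 1) ν z‖ ^ 2 ∂ν) := by
  have := h.1
  have hc' : (0 : ℝ) < c := by exact_mod_cast hc
  have hA0 : OK d (2 * M + 1) (A1 c M) := hA _ List.mem_cons_self
  obtain ⟨w1, w2⟩ := WN_total (by omega) hA hid h
  have hG := w1.integral_prod_left
  -- the bound for fixed `z`
  have key : ∀ z : X d, (∫ p : X d × X d, wa (A1 c M) (p.1 - z) (p.2 - z) *
      li (A1 c M).k (A1 c M).L (p.1 - z) (p.2 - z) ∂(ν.prod ν)) ≤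
      (c : ℝ)⁻¹ * ∫ p : X d × X d, WN (A1 c M :: T) (p.1 - z) (p.2 - z) ∂(ν.prod ν) := by
    intro z
    have h1 := (cert_fix (by omega) h hA (ω := fun _ => (1 : ℝ)) measurable_const
      (fun _ => by simp) z).2.2
    simp only [mul_one] at h1
    have h2 : ((A1 c M).c : ℝ) = c := rfl
    rw [h2] at h1
    rw [le_inv_mul_iff₀ hc']
    exact h1
  have hpos : ∀ z : X d, 0 ≤ ∫ p : X d × X d, wa (A1 c M) (p.1 - z) (p.2 - z) *
      li (A1 c M).k (A1 c M).L (p.1 - z) (p.2 - z) ∂(ν.prod ν) := by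
    intro z
    have h1 := (fix_pos (by omega) h hA0 (ω := fun _ => (1 : ℝ)) measurable_const
      (fun _ => by simp) z).2
    simpa only [mul_one] using h1
  calc ∫⁻ z, (∫⁻ t in Ioi (0 : ℝ), QN M ν z t * ENNReal.ofReal t⁻¹) ∂ν
      ≤ ∫⁻ z, ENNReal.ofReal ((c : ℝ)⁻¹ *
          ∫ p : X d × X d, WN (A1 c M :: T) (p.1 - z) (p.2 - z) ∂(ν.prod ν)) ∂ν := by
        refine lintegral_mono fun z => ?_
        rw [RGEnD_fix hA0 h z]
        exact ENNReal.ofReal_le_ofReal (key z)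
    _ = ENNReal.ofReal (∫ z, (c : ℝ)⁻¹ *
          ∫ p : X d × X d, WN (A1 c M :: T) (p.1 - z) (p.2 - z) ∂(ν.prod ν) ∂ν) := by
        refine (ofReal_integral_eq_lintegral_ofReal (hG.const_mul _) ?_).symm
        exact Eventually.of_forall fun z => (hpos z).trans (key z)
    _ = ENNReal.ofReal ((c : ℝ)⁻¹ * ∫ z, ‖FN (2 * M + 1) ν z‖ ^ 2 ∂ν) := by
        rw [integral_const_mul, ← w2, integral_prod _ w1]

end Pool.Agent.H48.RG
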