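import Pool.Agent.H48.RG.PairG

/-!
doubleG: template R9/DblB.lean (doubleB) or R7/Dbl.lean.  |eg κ α β z x Y| ≤ C (1 + ‖x-z‖^4) g(x-Y) with g(v) = (1 + ‖v‖)^4 ga β v
bounded and integrable (poly_ga, ga_integrable), C depending on κ, α, β: qg κ α v i is a polynomial in v of degree ≤ 2 (i = 0, 1: degree
≤ 2, 1; i = 2: ≤ 1; i = 3, 4: 0), so |qg κ α (β r²) i| r^i ≤ C (1 + r^4).
-/

set_option autoImplicit false

open MeasureTheory Filter Topology Metric Set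
open scoped RealInnerProductSpace ENNReal

namespace Pool.Agent.H48.RG

open Pool.Agent.RZ Pool.Agent.H1.LD Pool.Agent.H48.R7

variable {d : ℕ}

/-- the majorant in the variable `Y` -/
private noncomputable def RGDblG_g (K β : ℝ) (v : X d) : ℝ :=
  K * ((1 + ‖v‖) ^ 4 * ga β v)

private theorem RGDblG_g_nonneg {K β : ℝ} (hK : 0 ≤ K) (v : X d) : 0 ≤ RGDblG_g K β v := by
  unfold RGDblG_g
  have := ga_nonneg β v
  positivity

private theorem RGDblG_g_bound (d : ℕ) {K β : ℝ} (hK : 0 ≤ K) (hβ : 0 < β) :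
    ∃ C : ℝ, ∀ v : X d, RGDblG_g K β v ≤ C := by
  obtain ⟨C, hC, hCb⟩ := poly_ga d 4 hβ
  refine ⟨K * C, fun v => ?_⟩
  have h1 := hCb v
  have h2 : ga 0 v = 1 := by unfold ga; simp
  rw [h2, mul_one] at h1
  unfold RGDblG_g
  exact mul_le_mul_of_nonneg_left h1 hK

private theorem RGDblG_g_integrable (K : ℝ) {β : ℝ} (hβ : 0 < β) :
    Integrable (RGDblG_g K β : X d → ℝ) :=
  (ga_integrable (d := d) hβ 4).const_mul K

private theorem RGDblG_pow {r : ℝ} (hr : 0 ≤ r) {k : ℕ} (hk : k ≤ 4) : r ^ k ≤ 1 + r ^ 4 := by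
  rcases le_total r 1 with h | h
  · have h1 : r ^ k ≤ 1 := pow_le_one₀ hr h
    have h2 : 0 ≤ r ^ 4 := by positivity
    linarith
  · have h1 : r ^ k ≤ r ^ 4 := pow_le_pow_right₀ h hk
    linarith

private theorem RGDblG_poly (c0 c1 c2 : ℝ) {i : ℕ} (h0 : i ≤ 4) (h1 : c1 ≠ 0 → i + 2 ≤ 4)
    (h2 : c2 ≠ 0 → i + 4 ≤ 4) {r : ℝ} (hr : 0 ≤ r) :
    |c0 + c1 * r ^ 2 + c2 * r ^ 4| * r ^ i ≤ (|c0| + |c1| + |c2|) * (1 + r ^ 4) := by
  have e1 : |c0 + c1 * r ^ 2 + c2 * r ^ 4| ≤ |c0| + |c1| * r ^ 2 + |c2| * r ^ 4 := by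
    have a1 := abs_add_le (c0 + c1 * r ^ 2) (c2 * r ^ 4)
    have a2 := abs_add_le c0 (c1 * r ^ 2)
    rw [abs_mul c1, abs_of_nonneg (by positivity : (0 : ℝ) ≤ r ^ 2)] at a2
    rw [abs_mul c2, abs_of_nonneg (by positivity : (0 : ℝ) ≤ r ^ 4)] at a1
    linarith
  have b0 : |c0| * r ^ i ≤ |c0| * (1 + r ^ 4) :=
    mul_le_mul_of_nonneg_left (RGDblG_pow hr h0) (abs_nonneg _)
  have b1 : |c1| * r ^ (i + 2) ≤ |c1| * (1 + r ^ 4) := by
    rcases eq_or_ne c1 0 with h | h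
    · rw [h, abs_zero, zero_mul, zero_mul]
    · exact mul_le_mul_of_nonneg_left (RGDblG_pow hr (h1 h)) (abs_nonneg _)
  have b2 : |c2| * r ^ (i + 4) ≤ |c2| * (1 + r ^ 4) := by
    rcases eq_or_ne c2 0 with h | h
    · rw [h, abs_zero, zero_mul, zero_mul]
    · exact mul_le_mul_of_nonneg_left (RGDblG_pow hr (h2 h)) (abs_nonneg _)
  calc |c0 + c1 * r ^ 2 + c2 * r ^ 4| * r ^ i ≤ (|c0| + |c1| * r ^ 2 + |c2| * r ^ 4) * r ^ i :=
        mul_le_mul_of_nonneg_right e1 (by positivity)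
    _ = |c0| * r ^ i + |c1| * r ^ (i + 2) + |c2| * r ^ (i + 4) := by ring
    _ ≤ |c0| * (1 + r ^ 4) + |c1| * (1 + r ^ 4) + |c2| * (1 + r ^ 4) :=
        add_le_add (add_le_add b0 b1) b2
    _ = _ := by ring

private theorem RGDblG_aux (c0 c1 c2 : ℝ) {i : ℕ} (h0 : i ≤ 4) (h1 : c1 ≠ 0 → i + 2 ≤ 4)
    (h2 : c2 ≠ 0 → i + 4 ≤ 4) (q : ℝ → ℝ) (hq : ∀ r, q r = c0 + c1 * r ^ 2 + c2 * r ^ 4) :
    ∃ K : ℝ, 0 ≤ K ∧ ∀ r : ℝ, 0 ≤ r → |q r| * r ^ i ≤ K * (1 + r ^ 4) := by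
  refine ⟨|c0| + |c1| + |c2|, by positivity, fun r hr => ?_⟩
  rw [hq r]
  exact RGDblG_poly c0 c1 c2 h0 h1 h2 hr

private theorem RGDblG_qg (κ : ℝ) (α : Fin 6 → ℝ) (β : ℝ) (i : ℕ) : ∃ K : ℝ, 0 ≤ K ∧
    ∀ r : ℝ, 0 ≤ r → |qg κ α (β * r ^ 2) i| * r ^ i ≤ K * (1 + r ^ 4) := by
  match i with
  | 0 =>
    exact RGDblG_aux (α 0 * κ + α 1 * κ ^ 2 + α 3 * κ ^ 3 + α 5 * κ ^ 4)
      (β * (-2 * α 1 + α 2 * (1 + κ / 2) + α 3 * (-6 - 6 * κ) +
            α 4 * (2 + 2 * κ + κ ^ 2 / 2) + α 5 * (-14 - 24 * κ - 12 * κ ^ 2)))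
      (β ^ 2 * (-α 4 + 12 * α 5)) (by norm_num) (fun _ => by norm_num) (fun _ => by norm_num)
      (fun r => qg κ α (β * r ^ 2) 0) (fun r => by simp only [qg]; ring)
  | 1 =>
    exact RGDblG_aux (-2 * α 0 - α 1 * (2 + 4 * κ) + α 3 * (-2 - 6 * κ - 6 * κ ^ 2) +
            α 5 * (-2 - 8 * κ - 12 * κ ^ 2 - 8 * κ ^ 3))
      (β * (-α 2 + 12 * α 3 + α 4 * (-5 - 2 * κ) + α 5 * (72 + 48 * κ)))
      0 (by norm_num) (fun _ => by norm_num) (fun h => (h rfl).elim)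
      (fun r => qg κ α (β * r ^ 2) 1) (fun r => by simp only [qg]; ring)
  | 2 =>
    exact RGDblG_aux (4 * α 1 + α 3 * (12 + 12 * κ) + α 5 * (28 + 48 * κ + 24 * κ ^ 2))
      (β * (2 * α 4 - 48 * α 5))
      0 (by norm_num) (fun _ => by norm_num) (fun h => (h rfl).elim)
      (fun r => qg κ α (β * r ^ 2) 2) (fun r => by simp only [qg]; ring)
  | 3 =>
    exact RGDblG_aux (-8 * α 3 + α 5 * (-48 - 32 * κ)) 0
      0 (by norm_num) (fun h => (h rfl).elim) (fun h => (h rfl).elim)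
      (fun r => qg κ α (β * r ^ 2) 3) (fun r => by simp only [qg]; ring)
  | 4 =>
    exact RGDblG_aux (16 * α 5) 0
      0 (by norm_num) (fun h => (h rfl).elim) (fun h => (h rfl).elim)
      (fun r => qg κ α (β * r ^ 2) 4) (fun r => by simp only [qg]; ring)
  | j + 5 =>
    refine ⟨0, le_refl _, fun r hr => ?_⟩
    have e : qg κ α (β * r ^ 2) (j + 5) = 0 := by simp only [qg]
    rw [e, abs_zero, zero_mul, zero_mul]

private theorem RGDblG_mqg (κ : ℝ) (α : Fin 6 → ℝ) (i : ℕ) : Measurable (fun v : ℝ => qg κ α v i) := by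
  match i with
  | 0 => simp only [qg]; fun_prop
  | 1 => simp only [qg]; fun_prop
  | 2 => simp only [qg]; fun_prop
  | 3 => simp only [qg]; fun_prop
  | 4 => simp only [qg]; fun_prop
  | j + 5 => simp only [qg]; fun_prop

private theorem RGDblG_eg (d : ℕ) (κ : ℝ) (α : Fin 6 → ℝ) {β : ℝ} (hβ : 0 < β) :
    ∃ K : ℝ, 0 ≤ K ∧ ∀ z x Y : X d,
      |eg κ α β z x Y| ≤ (1 + ‖x - z‖ ^ 4) * RGDblG_g K β (x - Y) := by
  choose k hk0 hk using fun i : ℕ => RGDblG_qg κ α β i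
  refine ⟨∑ i ∈ Finset.range 5, k i * β ^ i,
    Finset.sum_nonneg fun i _ => mul_nonneg (hk0 i) (by positivity), fun z x Y => ?_⟩
  unfold eg RGDblG_g
  have h0 := ga_nonneg β (x - Y)
  have h1 : |⟪x - z, x - Y⟫| ≤ ‖x - z‖ * ‖x - Y‖ := abs_real_inner_le_norm _ _
  have hD : 0 ≤ ‖x - z‖ := norm_nonneg _
  have hV : 0 ≤ ‖x - Y‖ := norm_nonneg _
  rw [abs_mul, abs_of_nonneg h0]
  have h2 : |∑ i ∈ Finset.range 5, qg κ α (β * ‖x - z‖ ^ 2) i * (β * ⟪x - z, x - Y⟫) ^ i| ≤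
      (∑ i ∈ Finset.range 5, k i * β ^ i) * ((1 + ‖x - z‖ ^ 4) * (1 + ‖x - Y‖) ^ 4) := by
    refine (Finset.abs_sum_le_sum_abs _ _).trans ?_
    rw [Finset.sum_mul]
    refine Finset.sum_le_sum fun i hi => ?_
    have hi4 : i ≤ 4 := by
      have := Finset.mem_range.1 hi
      omega
    rw [abs_mul, abs_pow, abs_mul, abs_of_pos hβ]
    have h3 : (β * |⟪x - z, x - Y⟫|) ^ i ≤ β ^ i * (‖x - z‖ ^ i * ‖x - Y‖ ^ i) := by
      rw [← mul_pow, ← mul_pow]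
      exact pow_le_pow_left₀ (by positivity) (mul_le_mul_of_nonneg_left h1 hβ.le) i
    have h4 : ‖x - Y‖ ^ i ≤ (1 + ‖x - Y‖) ^ 4 :=
      (pow_le_pow_left₀ hV (by linarith) i).trans (pow_le_pow_right₀ (by linarith) hi4)
    calc |qg κ α (β * ‖x - z‖ ^ 2) i| * (β * |⟪x - z, x - Y⟫|) ^ i
        ≤ |qg κ α (β * ‖x - z‖ ^ 2) i| * (β ^ i * (‖x - z‖ ^ i * ‖x - Y‖ ^ i)) :=
          mul_le_mul_of_nonneg_left h3 (abs_nonneg _)
      _ = (|qg κ α (β * ‖x - z‖ ^ 2) i| * ‖x - z‖ ^ i) * (β ^ i * ‖x - Y‖ ^ i) := by ring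
      _ ≤ (k i * (1 + ‖x - z‖ ^ 4)) * (β ^ i * (1 + ‖x - Y‖) ^ 4) := by
          refine mul_le_mul (hk i _ hD) (mul_le_mul_of_nonneg_left h4 (by positivity))
            (by positivity) ?_
          exact mul_nonneg (hk0 i) (by positivity)
      _ = _ := by ring
  calc |∑ i ∈ Finset.range 5, qg κ α (β * ‖x - z‖ ^ 2) i * (β * ⟪x - z, x - Y⟫) ^ i| *
        ga β (x - Y)
      ≤ ((∑ i ∈ Finset.range 5, k i * β ^ i) *
          ((1 + ‖x - z‖ ^ 4) * (1 + ‖x - Y‖) ^ 4)) * ga β (x - Y) :=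
        mul_le_mul_of_nonneg_right h2 h0
    _ = _ := by ring

/-- the weight -/
private noncomputable def RGDblG_H (ω : X d → ℝ) (z x : X d) : ℝ := |ω x| * (1 + ‖x - z‖ ^ 4)

private theorem RGDblG_H_nonneg (ω : X d → ℝ) (z x : X d) : 0 ≤ RGDblG_H ω z x := by
  unfold RGDblG_H; positivity

private theorem RGDblG_H_int {ν : Measure (X d)} (ω : X d → ℝ)
    (z : X d) (h1 : Integrable ω ν) (h2 : Integrable (fun x => ω x * ‖x - z‖ ^ 4) ν) :
    Integrable (RGDblG_H ω z) ν := by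
  have h3 := h1.norm.add h2.norm
  refine h3.congr (Filter.Eventually.of_forall fun x => ?_)
  simp only [Pi.add_apply, RGDblG_H, norm_mul, Real.norm_eq_abs, norm_pow, abs_norm]
  ring

private theorem RGDblG_meg {Ω : Type} [MeasurableSpace Ω] (κ : ℝ) (α : Fin 6 → ℝ) (β : ℝ) (z : X d)
    {f g : Ω → X d} (hf : Measurable f) (hg : Measurable g) :
    Measurable (fun q : Ω => eg κ α β z (f q) (g q)) := by
  have h1 : Measurable (fun q : Ω => β * ‖f q - z‖ ^ 2) := by fun_prop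
  have h2 : Measurable (fun q : Ω => β * ⟪f q - z, f q - g q⟫) := by fun_prop
  have h3 : Measurable (fun q : Ω => ga β (f q - g q)) := by
    unfold ga
    fun_prop
  unfold eg
  refine (Finset.measurable_fun_sum _ fun i _ => ?_).mul h3
  exact ((RGDblG_mqg κ α i).comp h1).mul (h2.pow_const i)

/-- the triple integrand -/
private noncomputable def RGDblG_G (κ : ℝ) (α : Fin 6 → ℝ) (β : ℝ) (ω : X d → ℝ) (z : X d)
    (q : (X d × X d) × X d) : ℝ :=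
  (ω q.1.1 * eg κ α β z q.1.1 q.2) * (ω q.1.2 * eg κ α β z q.1.2 q.2)

private theorem RGDblG_G_meas (κ : ℝ) (α : Fin 6 → ℝ) (β : ℝ) (ω : X d → ℝ) (hω : Measurable ω)
    (z : X d) : Measurable (RGDblG_G κ α β ω z) := by
  have m1 : Measurable (fun q : (X d × X d) × X d => q.1.1) := measurable_fst.comp measurable_fst
  have m2 : Measurable (fun q : (X d × X d) × X d => q.1.2) := measurable_snd.comp measurable_fst
  have m3 : Measurable (fun q : (X d × X d) × X d => q.2) := measurable_snd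
  have h2 := RGDblG_meg κ α β z m1 m3
  have h3 := RGDblG_meg κ α β z m2 m3
  unfold RGDblG_G
  exact ((hω.comp m1).mul h2).mul ((hω.comp m2).mul h3)

private theorem RGDblG_G_meas1 (κ : ℝ) (α : Fin 6 → ℝ) (β : ℝ) (ω : X d → ℝ) (hω : Measurable ω)
    (z : X d) (p : X d × X d) : Measurable (fun Y : X d => RGDblG_G κ α β ω z (p, Y)) :=
  (RGDblG_G_meas κ α β ω hω z).comp measurable_prodMk_left

section
variable {κ : ℝ} {α : Fin 6 → ℝ} {β C K : ℝ}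

private theorem RGDblG_G_bound (hK : 0 ≤ K) (hKb : ∀ z x Y : X d,
      |eg κ α β z x Y| ≤ (1 + ‖x - z‖ ^ 4) * RGDblG_g K β (x - Y))
    (hgb : ∀ v : X d, RGDblG_g K β v ≤ C)
    (ω : X d → ℝ) (z x x' Y : X d) : |RGDblG_G κ α β ω z ((x, x'), Y)| ≤
      (RGDblG_H ω z x * RGDblG_H ω z x' * C) * RGDblG_g K β (x - Y) := by
  have h1 := hKb z x Y
  have h2 := hKb z x' Y
  have h5 := RGDblG_g_nonneg (β := β) hK (x - Y)
  have h6 := RGDblG_g_nonneg (β := β) hK (x' - Y)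
  have h7 := hgb (x' - Y)
  have e1 : |ω x| * |eg κ α β z x Y| ≤ RGDblG_H ω z x * RGDblG_g K β (x - Y) := by
    calc |ω x| * |eg κ α β z x Y| ≤ |ω x| * ((1 + ‖x - z‖ ^ 4) * RGDblG_g K β (x - Y)) :=
          mul_le_mul_of_nonneg_left h1 (abs_nonneg _)
      _ = _ := by unfold RGDblG_H; ring
  have e2 : |ω x'| * |eg κ α β z x' Y| ≤ RGDblG_H ω z x' * C := by
    calc |ω x'| * |eg κ α β z x' Y| ≤ |ω x'| * ((1 + ‖x' - z‖ ^ 4) * RGDblG_g K β (x' - Y)) :=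
          mul_le_mul_of_nonneg_left h2 (abs_nonneg _)
      _ = RGDblG_H ω z x' * RGDblG_g K β (x' - Y) := by unfold RGDblG_H; ring
      _ ≤ _ := mul_le_mul_of_nonneg_left h7 (RGDblG_H_nonneg ω z x')
  calc |RGDblG_G κ α β ω z ((x, x'), Y)| =
        (|ω x| * |eg κ α β z x Y|) * (|ω x'| * |eg κ α β z x' Y|) := by
        unfold RGDblG_G; rw [abs_mul, abs_mul, abs_mul]
    _ ≤ (RGDblG_H ω z x * RGDblG_g K β (x - Y)) * (RGDblG_H ω z x' * C) := by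
        refine mul_le_mul e1 e2 (by positivity) ?_
        exact mul_nonneg (RGDblG_H_nonneg ω z x) h5
    _ = _ := by ring

private theorem RGDblG_G_slice (hβ : 0 < β) (hK : 0 ≤ K) (hKb : ∀ z x Y : X d,
      |eg κ α β z x Y| ≤ (1 + ‖x - z‖ ^ 4) * RGDblG_g K β (x - Y))
    (hgb : ∀ v : X d, RGDblG_g K β v ≤ C)
    (ω : X d → ℝ) (hω : Measurable ω) (z : X d) (p : X d × X d) :
    Integrable (fun Y => RGDblG_G κ α β ω z (p, Y)) := by
  have h1 : Integrable (fun Y : X d => RGDblG_g K β (p.1 - Y)) :=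
    (RGDblG_g_integrable K hβ).comp_sub_left p.1
  have h2 := h1.const_mul (RGDblG_H ω z p.1 * RGDblG_H ω z p.2 * C)
  refine h2.mono' (RGDblG_G_meas1 κ α β ω hω z p).aestronglyMeasurable
    (Filter.Eventually.of_forall fun Y => ?_)
  rw [Real.norm_eq_abs]
  exact RGDblG_G_bound hK hKb hgb ω z p.1 p.2 Y

private theorem RGDblG_G_int {ν : Measure (X d)} [IsFiniteMeasure ν] (hβ : 0 < β) (hK : 0 ≤ K)
    (hKb : ∀ z x Y : X d, |eg κ α β z x Y| ≤ (1 + ‖x - z‖ ^ 4) * RGDblG_g K β (x - Y))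
    (hgb : ∀ v : X d, RGDblG_g K β v ≤ C) (ω : X d → ℝ) (hω : Measurable ω) (z : X d)
    (hH : Integrable (RGDblG_H ω z) ν) :
    Integrable (RGDblG_G κ α β ω z) ((ν.prod ν).prod volume) := by
  have hGm := RGDblG_G_meas κ α β ω hω z
  rw [integrable_prod_iff hGm.aestronglyMeasurable]
  refine ⟨Filter.Eventually.of_forall (RGDblG_G_slice hβ hK hKb hgb ω hω z), ?_⟩
  have hmul : Integrable (fun p : X d × X d => RGDblG_H ω z p.1 * RGDblG_H ω z p.2) (ν.prod ν) :=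
    hH.mul_prod hH
  have hmul2 := hmul.mul_const (C * ∫ w : X d, RGDblG_g K β w)
  have hms : AEStronglyMeasurable (fun p : X d × X d => ∫ Y, ‖RGDblG_G κ α β ω z (p, Y)‖)
      (ν.prod ν) := hGm.norm.aestronglyMeasurable.integral_prod_right'
  refine hmul2.mono' hms (Filter.Eventually.of_forall fun p => ?_)
  have h0 : 0 ≤ ∫ Y, ‖RGDblG_G κ α β ω z (p, Y)‖ := integral_nonneg fun Y => norm_nonneg _
  rw [Real.norm_of_nonneg h0]
  have h1 : Integrable (fun Y : X d => RGDblG_g K β (p.1 - Y)) :=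
    (RGDblG_g_integrable K hβ).comp_sub_left p.1
  have h2 := h1.const_mul (RGDblG_H ω z p.1 * RGDblG_H ω z p.2 * C)
  have h3 : ∫ Y : X d, RGDblG_g K β (p.1 - Y) = ∫ w : X d, RGDblG_g K β w :=
    integral_sub_left_eq_self (fun w : X d => RGDblG_g K β w) volume p.1
  calc ∫ Y, ‖RGDblG_G κ α β ω z (p, Y)‖
      ≤ ∫ Y, (RGDblG_H ω z p.1 * RGDblG_H ω z p.2 * C) * RGDblG_g K β (p.1 - Y) := by
        refine integral_mono (RGDblG_G_slice hβ hK hKb hgb ω hω z p).norm h2 fun Y => ?_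
        simp only [Real.norm_eq_abs]
        exact RGDblG_G_bound hK hKb hgb ω z p.1 p.2 Y
    _ = (RGDblG_H ω z p.1 * RGDblG_H ω z p.2 * C) * ∫ w : X d, RGDblG_g K β w := by
        rw [integral_const_mul, h3]
    _ = _ := by ring

end

theorem doubleG {ν : Measure (X d)} [IsFiniteMeasure ν] (κ : ℝ) (α : Fin 6 → ℝ) (ω : X d → ℝ)
    (hω : Measurable ω) (z : X d) (h1 : Integrable ω ν)
    (h2 : Integrable (fun x => ω x * ‖x - z‖ ^ 4) ν) {t : ℝ} (ht : 0 < t) :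
    Integrable (fun p : X d × X d => ω p.1 * ω p.2 * mg κ α (p.1 - z) (p.2 - z) t) (ν.prod ν) ∧
    Integrable (fun Y : X d => (∫ x, ω x * eg κ α (2 / t ^ 2) z x Y ∂ν) ^ 2) ∧
    ∫ Y : X d, (∫ x, ω x * eg κ α (2 / t ^ 2) z x Y ∂ν) ^ 2 = t ^ d * gc d 4 *
      ∫ p : X d × X d, ω p.1 * ω p.2 * mg κ α (p.1 - z) (p.2 - z) t ∂(ν.prod ν) := by
  have hβ : (0:ℝ) < 2 / t ^ 2 := by positivity
  obtain ⟨K, hK, hKb⟩ := RGDblG_eg d κ α hβ
  obtain ⟨C, hgb⟩ := RGDblG_g_bound d hK hβ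
  have hH := RGDblG_H_int ω z h1 h2
  have hGi := RGDblG_G_int (ν := ν) hβ hK hKb hgb ω hω z hH
  have hY : ∀ Y : X d, (∫ x, ω x * eg κ α (2 / t ^ 2) z x Y ∂ν) ^ 2 =
      ∫ p, RGDblG_G κ α (2 / t ^ 2) ω z (p, Y) ∂(ν.prod ν) := by
    intro Y
    rw [sq]
    exact (integral_prod_mul (fun x => ω x * eg κ α (2 / t ^ 2) z x Y)
      (fun x => ω x * eg κ α (2 / t ^ 2) z x Y)).symm
  have hP : ∀ p : X d × X d, ∫ Y, RGDblG_G κ α (2 / t ^ 2) ω z (p, Y) = t ^ d * gc d 4 *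
      (ω p.1 * ω p.2 * mg κ α (p.1 - z) (p.2 - z) t) := by
    intro p
    have hg := gauss_pairG ht κ α z p.1 p.2
    have h3 : ∀ Y : X d, RGDblG_G κ α (2 / t ^ 2) ω z (p, Y) = (ω p.1 * ω p.2) *
        (eg κ α (2 / t ^ 2) z p.1 Y * eg κ α (2 / t ^ 2) z p.2 Y) := by
      intro Y
      unfold RGDblG_G
      ring
    rw [integral_congr_ae (Filter.Eventually.of_forall h3), integral_const_mul, hg]
    ring
  have hconst : 0 < t ^ d * gc d 4 := mul_pos (pow_pos ht d) (gc_pos (by norm_num))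
  refine ⟨?_, ?_, ?_⟩
  · have h4 := hGi.integral_prod_left
    have h5 := h4.const_mul (t ^ d * gc d 4)⁻¹
    refine h5.congr (Filter.Eventually.of_forall fun p => ?_)
    simp only
    rw [hP p, ← mul_assoc, inv_mul_cancel₀ hconst.ne', one_mul]
  · have h4 := hGi.integral_prod_right
    exact h4.congr (Filter.Eventually.of_forall fun Y => (hY Y).symm)
  · have h4 : ∫ Y : X d, (∫ x, ω x * eg κ α (2 / t ^ 2) z x Y ∂ν) ^ 2 =
        ∫ Y : X d, ∫ p, RGDblG_G κ α (2 / t ^ 2) ω z (p, Y) ∂(ν.prod ν) :=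
      integral_congr_ae (Filter.Eventually.of_forall hY)
    have h5 : ∫ p, (∫ Y, RGDblG_G κ α (2 / t ^ 2) ω z (p, Y)) ∂(ν.prod ν) =
        ∫ Y : X d, ∫ p, RGDblG_G κ α (2 / t ^ 2) ω z (p, Y) ∂(ν.prod ν) :=
      integral_integral_swap (f := fun p Y => RGDblG_G κ α (2 / t ^ 2) ω z (p, Y)) hGi
    rw [h4, ← h5, integral_congr_ae (Filter.Eventually.of_forall hP), integral_const_mul]

end Pool.Agent.H48.RG
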