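import Pool.Agent.H48.RG.DblG
import Pool.Agent.H48.R7.Dbl

/-!
nice_intN: r⁻ᵏ ≤ 1 + r⁻ᴺ for k ≤ N.  Template: R9/DbqA.lean.
QN_double: template Q9_double in R9/DbqA.lean (A1 c M: fg is ‖a‖⁻¹^(2M)‖b‖⁻¹^(2M) mta 1 a b t t⁻¹^3, as lv L1 a b t = mta 1 a b t).
fg_double: template R9/DbqC.lean (fa_double and its private induction lemma), now with the extra weight ω: induction on j for every
measurable W with |W x| ≤ ‖x-z‖⁻¹^e, using ⟪a,b⟫^(j+1) = ∑_i (a_i b_i) ⟪a,b⟫^j; at j = 0: doubleG with the α of hK (needs W and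
W ‖x-z‖^4 integrable: 4 ≤ e ≤ N). Start: W x = ω x * ‖x-z‖⁻¹^(2m).  lv = mg by hK for t > 0.
-/

set_option autoImplicit false

open MeasureTheory Filter Topology Metric Set
open scoped RealInnerProductSpace ENNReal

namespace Pool.Agent.H48.RG

open Pool.Agent.RZ Pool.Agent.H1.LD Pool.Agent.H48.R7

variable {d : ℕ}

theorem nice_intN {N : ℕ} {ν : Measure (X d)} (h : NiceN N ν) (z : X d) {k : ℕ} (hk : k ≤ N) :
    Integrable (fun x : X d => ‖x - z‖⁻¹ ^ k) ν := by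
  obtain ⟨hf, C, hC⟩ := h
  have hm : Measurable (fun x : X d => ‖x - z‖⁻¹ ^ k) :=
    ((measurable_id.sub_const z).norm.inv).pow_const k
  refine ⟨hm.aestronglyMeasurable, ?_⟩
  rw [hasFiniteIntegral_iff_enorm]
  have hle : ∀ x : X d, ‖(‖x - z‖⁻¹ ^ k : ℝ)‖ₑ ≤ 1 + ‖x - z‖ₑ⁻¹ ^ N := by
    intro x
    by_cases hx : x - z = 0
    · rw [hx]
      rcases Nat.eq_zero_or_pos k with h0 | h0
      · rw [h0]; simp
      · simp [h0.ne']
    · have hpos : 0 < ‖x - z‖ := norm_pos_iff.2 hx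
      have h1 : ‖(‖x - z‖⁻¹ ^ k : ℝ)‖ₑ = ‖x - z‖ₑ⁻¹ ^ k := by
        rw [enorm_pow, enorm_inv hpos.ne', enorm_norm]
      rw [h1]
      set e : ℝ≥0∞ := ‖x - z‖ₑ⁻¹ with he
      rcases le_total e 1 with h2 | h2
      · calc e ^ k ≤ 1 := pow_le_one₀ zero_le h2
          _ ≤ 1 + e ^ N := le_self_add
      · calc e ^ k ≤ e ^ N := pow_le_pow_right₀ h2 hk
          _ ≤ 1 + e ^ N := le_add_self
  calc ∫⁻ x, ‖(‖x - z‖⁻¹ ^ k : ℝ)‖ₑ ∂ν ≤ ∫⁻ x, (1 + ‖x - z‖ₑ⁻¹ ^ N) ∂ν := lintegral_mono hle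
    _ = ν univ + ∫⁻ x, ‖x - z‖ₑ⁻¹ ^ N ∂ν := by
        rw [lintegral_add_left measurable_const]; simp
    _ ≤ ν univ + ENNReal.ofReal C := by gcongr; exact hC z
    _ < ⊤ := ENNReal.add_lt_top.2 ⟨measure_lt_top ν univ, ENNReal.ofReal_lt_top⟩

theorem lv_L1 (a b : X d) {t : ℝ} (ht : 0 < t) : lv L1 a b t = mta 1 a b t := by
  have ht0 : t ≠ 0 := ht.ne'
  unfold lv L1 mta
  congr 1
  simp only [List.map_cons, List.map_nil, List.sum_cons, List.sum_nil, mv, wt, prg]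
  push_cast
  field_simp
  ring

private theorem RGDbq_meas (z : X d) (k : ℕ) : Measurable (fun x : X d => ‖x - z‖⁻¹ ^ k) :=
  ((measurable_id.sub_const z).norm.inv).pow_const k

private theorem RGDbq_pow {r : ℝ} (hr : 0 ≤ r) (e : ℕ) : r⁻¹ ^ (e + 1) * r ≤ r⁻¹ ^ e := by
  rcases hr.eq_or_lt with h | h
  · rw [← h, mul_zero]
    positivity
  · rw [pow_succ, mul_assoc, inv_mul_cancel₀ h.ne', mul_one]

private theorem RGDbq_pow4 {r : ℝ} (hr : 0 ≤ r) (e : ℕ) : r⁻¹ ^ (e + 4) * r ^ 4 ≤ r⁻¹ ^ e := by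
  rcases hr.eq_or_lt with h | h
  · rw [← h]
    simp
  · rw [pow_add, mul_assoc, ← mul_pow, inv_mul_cancel₀ h.ne', one_pow, mul_one]

private theorem RGDbq_inner (a b : X d) : (⟪a, b⟫ : ℝ) = ∑ i, a i * b i := by
  rw [PiLp.inner_apply]
  refine Finset.sum_congr rfl fun i _ => ?_
  simp [mul_comm]

private theorem RGDbq_aux {N : ℕ} {ν : Measure (X d)} (h : NiceN N ν) (κ : ℝ) (α : Fin 6 → ℝ)
    (z : X d) {t : ℝ} (ht : 0 < t) (j : ℕ) :
    ∀ (e : ℕ) (W : X d → ℝ), j + 4 ≤ e → e ≤ j + N → Measurable W →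
      (∀ x, |W x| ≤ ‖x - z‖⁻¹ ^ e) →
      Integrable (fun p : X d × X d => W p.1 * W p.2 * ⟪p.1 - z, p.2 - z⟫ ^ j *
        mg κ α (p.1 - z) (p.2 - z) t) (ν.prod ν) ∧
      0 ≤ ∫ p : X d × X d, W p.1 * W p.2 * ⟪p.1 - z, p.2 - z⟫ ^ j *
        mg κ α (p.1 - z) (p.2 - z) t ∂(ν.prod ν) := by
  have hfin : IsFiniteMeasure ν := h.1
  have hconst : 0 < t ^ d * gc d 4 := mul_pos (pow_pos ht d) (gc_pos (by norm_num))
  induction j with
  | zero =>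
    intro e W h1 h2 hW hb
    have i1 : Integrable W ν := by
      refine (nice_intN h z (k := e) (by omega)).mono' hW.aestronglyMeasurable
        (Filter.Eventually.of_forall fun x => ?_)
      rw [Real.norm_eq_abs]
      exact hb x
    have i2 : Integrable (fun x => W x * ‖x - z‖ ^ 4) ν := by
      have hm : Measurable (fun x => W x * ‖x - z‖ ^ 4) :=
        hW.mul ((measurable_id.sub_const z).norm.pow_const 4)
      refine (nice_intN h z (k := e - 4) (by omega)).mono' hm.aestronglyMeasurable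
        (Filter.Eventually.of_forall fun x => ?_)
      rw [Real.norm_eq_abs, abs_mul, abs_of_nonneg (by positivity : (0 : ℝ) ≤ ‖x - z‖ ^ 4)]
      obtain ⟨e', rfl⟩ : ∃ e', e = e' + 4 := ⟨e - 4, by omega⟩
      rw [Nat.add_sub_cancel]
      exact (mul_le_mul_of_nonneg_right (hb x) (by positivity)).trans
        (RGDbq_pow4 (norm_nonneg _) e')
    obtain ⟨k1, -, k3⟩ := doubleG (ν := ν) κ α W hW z i1 i2 ht
    have hf : (fun p : X d × X d => W p.1 * W p.2 * ⟪p.1 - z, p.2 - z⟫ ^ 0 *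
        mg κ α (p.1 - z) (p.2 - z) t) =
        fun p : X d × X d => W p.1 * W p.2 * mg κ α (p.1 - z) (p.2 - z) t := by
      funext p
      rw [pow_zero, mul_one]
    rw [hf]
    refine ⟨k1, ?_⟩
    have h0 : 0 ≤ ∫ Y : X d, (∫ x, W x * eg κ α (2 / t ^ 2) z x Y ∂ν) ^ 2 :=
      integral_nonneg fun Y => by positivity
    rw [k3] at h0
    exact nonneg_of_mul_nonneg_right h0 hconst
  | succ j ih =>
    intro e W h1 h2 hW hb
    obtain ⟨e', rfl⟩ : ∃ e', e = e' + 1 := ⟨e - 1, by omega⟩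
    have key := fun i : Fin d => ih e' (fun x => W x * (x - z) i) (by omega) (by omega)
      (hW.mul (by fun_prop)) (fun x => by
        rw [abs_mul]
        have h3 : |(x - z) i| ≤ ‖x - z‖ := PiLp.norm_apply_le (x - z) i
        exact (mul_le_mul (hb x) h3 (abs_nonneg _) (by positivity)).trans
          (RGDbq_pow (norm_nonneg _) e'))
    have hf : (fun p : X d × X d => W p.1 * W p.2 * ⟪p.1 - z, p.2 - z⟫ ^ (j + 1) *
        mg κ α (p.1 - z) (p.2 - z) t) = fun p : X d × X d => ∑ i : Fin d, W p.1 * (p.1 - z) i *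
          (W p.2 * (p.2 - z) i) * ⟪p.1 - z, p.2 - z⟫ ^ j * mg κ α (p.1 - z) (p.2 - z) t := by
      funext p
      rw [pow_succ', RGDbq_inner (p.1 - z) (p.2 - z)]
      generalize (∑ i : Fin d, (p.1 - z) i * (p.2 - z) i) ^ j = q
      rw [Finset.sum_mul, Finset.mul_sum, Finset.sum_mul]
      refine Finset.sum_congr rfl fun i _ => ?_
      ring
    rw [hf]
    have hi : ∀ i ∈ (Finset.univ : Finset (Fin d)), Integrable (fun p : X d × X d =>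
        W p.1 * (p.1 - z) i * (W p.2 * (p.2 - z) i) * ⟪p.1 - z, p.2 - z⟫ ^ j *
          mg κ α (p.1 - z) (p.2 - z) t) (ν.prod ν) :=
      fun i _ => (key i).1
    refine ⟨integrable_finsetSum _ hi, ?_⟩
    rw [integral_finsetSum _ hi]
    exact Finset.sum_nonneg fun i _ => (key i).2

theorem QN_double {M : ℕ} (hM : 1 ≤ M) {ν : Measure (X d)} (h : NiceN (2 * M + 1) ν) (c : ℚ)
    (z : X d) {t : ℝ} (ht : 0 < t) :
    QN M ν z t * ENNReal.ofReal t⁻¹ =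
      ENNReal.ofReal (∫ p, fg (A1 c M) z p t ∂(ν.prod ν)) := by
  have hfin : IsFiniteMeasure ν := h.1
  have i1 : Integrable (fun x : X d => ‖x - z‖⁻¹ ^ (2 * M)) ν := nice_intN h z (by omega)
  have i2 : Integrable (fun x : X d => ‖x - z‖⁻¹ ^ (2 * M) * ‖x - z‖) ν := by
    have hm : Measurable (fun x : X d => ‖x - z‖⁻¹ ^ (2 * M) * ‖x - z‖) :=
      (RGDbq_meas z (2 * M)).mul (measurable_id.sub_const z).norm
    refine (nice_intN h z (k := 2 * M - 1) (by omega)).mono' hm.aestronglyMeasurable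
      (Filter.Eventually.of_forall fun x => ?_)
    rw [Real.norm_eq_abs, abs_of_nonneg (by positivity)]
    obtain ⟨e, he⟩ : ∃ e, 2 * M = e + 1 := ⟨2 * M - 1, by omega⟩
    rw [he, Nat.add_sub_cancel]
    exact RGDbq_pow (norm_nonneg _) e
  obtain ⟨h1, h2, h3⟩ := double7 (ν := ν) 1 (fun x => ‖x - z‖⁻¹ ^ (2 * M)) (RGDbq_meas z (2 * M)) z
    i1 i2 ht
  have hconst : 0 < t ^ d * gc d 4 := mul_pos (pow_pos ht d) (gc_pos (by norm_num))
  have ht3 : 0 ≤ t⁻¹ ^ 3 := by positivity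
  set J : ℝ := ∫ p : X d × X d, ‖p.1 - z‖⁻¹ ^ (2 * M) * ‖p.2 - z‖⁻¹ ^ (2 * M) *
    mta 1 (p.1 - z) (p.2 - z) t ∂(ν.prod ν) with hJ
  have hf : ∀ p : X d × X d, fg (A1 c M) z p t =
      t⁻¹ ^ 3 * (‖p.1 - z‖⁻¹ ^ (2 * M) * ‖p.2 - z‖⁻¹ ^ (2 * M) *
        mta 1 (p.1 - z) (p.2 - z) t) := by
    intro p
    show ‖p.1 - z‖⁻¹ ^ (2 * M) * ‖p.2 - z‖⁻¹ ^ (2 * M) * ⟪p.1 - z, p.2 - z⟫ ^ 0 *
      (lv L1 (p.1 - z) (p.2 - z) t * t⁻¹ ^ 3) = _
    rw [lv_L1 _ _ ht, pow_zero]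
    ring
  have hJf : ∫ p, fg (A1 c M) z p t ∂(ν.prod ν) = t⁻¹ ^ 3 * J := by
    rw [integral_congr_ae (Filter.Eventually.of_forall hf), integral_const_mul]
  have h0 : 0 ≤ ∫ Y : X d, (∫ x, ‖x - z‖⁻¹ ^ (2 * M) * ek 1 (2 / t ^ 2) z x Y ∂ν) ^ 2 :=
    integral_nonneg fun Y => by positivity
  have hJ0 : 0 ≤ J := by
    rw [h3] at h0
    exact nonneg_of_mul_nonneg_right h0 hconst
  rw [hJf]
  unfold QN
  have h4 : ∫⁻ Y, ‖KN M ν z (2 / t ^ 2) Y‖ₑ ^ 2 =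
      ENNReal.ofReal (∫ Y : X d, (∫ x, ‖x - z‖⁻¹ ^ (2 * M) * ek 1 (2 / t ^ 2) z x Y ∂ν) ^ 2) := by
    rw [ofReal_integral_eq_lintegral_ofReal h2 (Filter.Eventually.of_forall fun Y => by positivity)]
    refine lintegral_congr fun Y => ?_
    change ‖KN M ν z (2 / t ^ 2) Y‖ₑ ^ 2 = ENNReal.ofReal (KN M ν z (2 / t ^ 2) Y ^ 2)
    generalize KN M ν z (2 / t ^ 2) Y = r
    rw [← sq_abs r, ENNReal.ofReal_pow (abs_nonneg _), ← Real.norm_eq_abs, ofReal_norm]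
  rw [h4, h3, ← ENNReal.ofReal_mul (by positivity), ← ENNReal.ofReal_mul (by positivity)]
  congr 1
  have hc := hconst.ne'
  calc (t ^ d * gc d 4)⁻¹ * t⁻¹ ^ 2 * (t ^ d * gc d 4 * J) * t⁻¹
      = ((t ^ d * gc d 4)⁻¹ * (t ^ d * gc d 4)) * (t⁻¹ ^ 3 * J) := by ring
    _ = t⁻¹ ^ 3 * J := by rw [inv_mul_cancel₀ hc, one_mul]

theorem fg_double {N : ℕ} {ν : Measure (X d)} (h : NiceN N ν) {A : At} (hA : OK d N A)
    {ω : X d → ℝ} (hω : Measurable ω) (h1 : ∀ x, |ω x| ≤ 1) (z : X d) {t : ℝ} (ht : 0 < t) :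
    Integrable (fun p : X d × X d => fg A z p t * (ω p.1 * ω p.2)) (ν.prod ν) ∧
    0 ≤ ∫ p, fg A z p t * (ω p.1 * ω p.2) ∂(ν.prod ν) := by
  obtain ⟨α, hα⟩ := hA.hK
  have hm := hA.hm
  have hj := hA.hj
  obtain ⟨k1, k2⟩ := RGDbq_aux h (A.k : ℝ) α z ht A.j (2 * A.m)
    (fun x => ω x * ‖x - z‖⁻¹ ^ (2 * A.m)) hj (by omega)
    (hω.mul (((measurable_id.sub_const z).norm.inv).pow_const _)) (fun x => by
      rw [abs_mul, abs_of_nonneg (by positivity : (0 : ℝ) ≤ ‖x - z‖⁻¹ ^ (2 * A.m))]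
      exact mul_le_of_le_one_left (by positivity) (h1 x))
  have hf : (fun p : X d × X d => fg A z p t * (ω p.1 * ω p.2)) =
      fun p : X d × X d => t⁻¹ ^ (2 * A.k + 1) *
      (ω p.1 * ‖p.1 - z‖⁻¹ ^ (2 * A.m) * (ω p.2 * ‖p.2 - z‖⁻¹ ^ (2 * A.m)) *
        ⟪p.1 - z, p.2 - z⟫ ^ A.j * mg (A.k : ℝ) α (p.1 - z) (p.2 - z) t) := by
    funext p
    unfold fg wa
    rw [hα _ _ t ht]
    ring
  rw [hf]
  refine ⟨k1.const_mul _, ?_⟩
  rw [integral_const_mul]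
  exact mul_nonneg (by positivity) k2

end Pool.Agent.H48.RG
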