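import Pool.Agent.H48.R7.Defs
import Pool.Agent.H1.LD.Qd

/-!
General machine for certificates: kernels given by lists of monomials, for every dimension N.
-/

set_option autoImplicit false

open MeasureTheory Filter Topology Metric Set
open scoped RealInnerProductSpace ENNReal

namespace Pool.Agent.H48.RG

open Pool.Agent.RZ Pool.Agent.H1.LD Pool.Agent.H48.R7

variable {d : ℕ}

/-! ### Gaussian kernels -/

/-- Gaussian moments: `E (P - g)^i (R - h)^j` for centred Gaussians `g, h` with variances `A/2`, `B/2` and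
covariance `p/2` -/
noncomputable def mo (P R A B p : ℝ) : ℕ → ℕ → ℝ
  | 0, 0 => 1
  | 0, 1 => R
  | 0, j + 2 => R * mo P R A B p 0 (j + 1) + (j + 1) / 2 * B * mo P R A B p 0 j
  | 1, 0 => P
  | 1, j + 1 => P * mo P R A B p 0 (j + 1) + (j + 1) / 2 * p * mo P R A B p 0 j
  | i + 2, 0 => P * mo P R A B p (i + 1) 0 + (i + 1) / 2 * A * mo P R A B p i 0
  | i + 2, j + 1 => P * mo P R A B p (i + 1) (j + 1) + (i + 1) / 2 * A * mo P R A B p i (j + 1) +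
      (j + 1) / 2 * p * mo P R A B p (i + 1) j
termination_by i j => (i, j)

/-- the coefficient of `u^i` in `D (α₀ + α₁ D + α₂ U + α₃ D² + α₄ D U + α₅ D³)` applied to the Gaussian, where
`u = β ⟪x - z, x - Y⟫`, `v = β |x - z|^2`, `D = E + κ`, `U = v / 2` -/
noncomputable def qg (κ : ℝ) (α : Fin 6 → ℝ) (v : ℝ) : ℕ → ℝ
  | 0 => α 0 * κ + α 1 * (κ ^ 2 - 2 * v) + α 2 * (v + κ / 2 * v) +
      α 3 * (κ ^ 3 - 6 * v - 6 * κ * v) + α 4 * (2 * v + 2 * κ * v + κ ^ 2 / 2 * v - v ^ 2) +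
      α 5 * (κ ^ 4 - 14 * v - 24 * κ * v - 12 * κ ^ 2 * v + 12 * v ^ 2)
  | 1 => -2 * α 0 - α 1 * (2 + 4 * κ) - α 2 * v + α 3 * (-2 - 6 * κ - 6 * κ ^ 2 + 12 * v) +
      α 4 * (-5 * v - 2 * κ * v) +
      α 5 * (-2 - 8 * κ - 12 * κ ^ 2 - 8 * κ ^ 3 + 72 * v + 48 * κ * v)
  | 2 => 4 * α 1 + α 3 * (12 + 12 * κ) + α 4 * (2 * v) +
      α 5 * (28 + 48 * κ + 24 * κ ^ 2 - 48 * v)
  | 3 => -8 * α 3 + α 5 * (-48 - 32 * κ)
  | 4 => 16 * α 5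
  | _ => 0

/-- the kernel vector -/
noncomputable def eg (κ : ℝ) (α : Fin 6 → ℝ) (β : ℝ) (z x Y : X d) : ℝ :=
  (∑ i ∈ Finset.range 5, qg κ α (β * ‖x - z‖ ^ 2) i * (β * ⟪x - z, x - Y⟫) ^ i) * ga β (x - Y)

/-- pair moments at scale `t` -/
noncomputable def pk (i j : ℕ) (a b : X d) (t : ℝ) : ℝ :=
  mo (⟪a, a - b⟫ / t ^ 2) (⟪b, b - a⟫ / t ^ 2) (‖a‖ ^ 2 / t ^ 2) (‖b‖ ^ 2 / t ^ 2) (⟪a, b⟫ / t ^ 2) i j *
    Real.exp (-(‖a - b‖ ^ 2 / t ^ 2))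

/-- the pair kernel of `eg` -/
noncomputable def mg (κ : ℝ) (α : Fin 6 → ℝ) (a b : X d) (t : ℝ) : ℝ :=
  ∑ i ∈ Finset.range 5, ∑ j ∈ Finset.range 5,
    qg κ α (2 / t ^ 2 * ‖a‖ ^ 2) i * qg κ α (2 / t ^ 2 * ‖b‖ ^ 2) j * pk i j a b t

/-! ### lists of monomials -/

/-- data of a monomial: coefficient, powers of `‖a-b‖²`, `⟪a,b⟫`, `⟪a,a-b⟫⟪b,b-a⟫` -/
abbrev Mn : Type := ℚ × ℕ × ℕ × ℕ

/-- the weight: the power of `t⁻²` -/
def wt (μ : Mn) : ℕ := μ.2.1 + μ.2.2.1 + 2 * μ.2.2.2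

/-- the product `⟪a, a - b⟫ ⟪b, b - a⟫` -/
noncomputable def prg (a b : X d) : ℝ := ⟪a, a - b⟫ * ⟪b, b - a⟫

/-- the monomial -/
noncomputable def mv (μ : Mn) (a b : X d) : ℝ :=
  (μ.1 : ℝ) * (‖a - b‖ ^ 2) ^ μ.2.1 * ⟪a, b⟫ ^ μ.2.2.1 * prg a b ^ μ.2.2.2

/-- the kernel of the list at scale `t` -/
noncomputable def lv (L : List Mn) (a b : X d) (t : ℝ) : ℝ :=
  (L.map fun μ => mv μ a b * t⁻¹ ^ (2 * wt μ)).sum * Real.exp (-(‖a - b‖ ^ 2 / t ^ 2))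

/-- the time integral of `lv L a b t * t^{-(2k+1)}` -/
noncomputable def li (k : ℕ) (L : List Mn) (a b : X d) : ℝ :=
  (L.map fun μ =>
    mv μ a b * ((k + wt μ - 1).factorial / 2 * ‖a - b‖⁻¹ ^ (2 * (k + wt μ)))).sum

/-- the constant of the bounds -/
noncomputable def bd (k : ℕ) (L : List Mn) : ℝ :=
  (L.map fun μ => |(μ.1 : ℝ)| * (k + wt μ).factorial).sum

/-- the list is the pair kernel of some `eg k α` -/
def IsKer (d k : ℕ) (L : List Mn) : Prop :=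
  ∃ α : Fin 6 → ℝ, ∀ a b : X d, ∀ t : ℝ, 0 < t → lv L a b t = mg k α a b t

/-! ### atoms -/

/-- an atom: coefficient, weight `|a|^{-2m} |b|^{-2m} ⟪a,b⟫^j`, time weight `t^{-(2k+1)}`, kernel `L` -/
structure At where
  c : ℚ
  m : ℕ
  j : ℕ
  k : ℕ
  L : List Mn

/-- admissible atoms in dimension `N` -/
structure OK (d N : ℕ) (A : At) : Prop where
  hc : 0 ≤ A.c
  hm : 2 * A.m + A.k = A.j + N
  hj : A.j + 4 ≤ 2 * A.m
  hL : ∀ μ ∈ A.L, 1 ≤ A.k + wt μ ∧ 2 * (A.k + μ.2.2.1 + μ.2.2.2) ≤ N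
  hK : IsKer d A.k A.L

/-- the weight of an atom -/
noncomputable def wa (A : At) (a b : X d) : ℝ :=
  ‖a‖⁻¹ ^ (2 * A.m) * ‖b‖⁻¹ ^ (2 * A.m) * ⟪a, b⟫ ^ A.j

/-- the certificate given by a list of atoms -/
noncomputable def WN (T : List At) (a b : X d) : ℝ :=
  (T.map fun A => (A.c : ℝ) * (wa A a b * li A.k A.L a b)).sum

/-- the time integrand of an atom -/
noncomputable def fg (A : At) (z : X d) (p : X d × X d) (t : ℝ) : ℝ :=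
  wa A (p.1 - z) (p.2 - z) * (lv A.L (p.1 - z) (p.2 - z) t * t⁻¹ ^ (2 * A.k + 1))

/-- the kernel list of `E + 1`: `mta 1` -/
def L1 : List Mn := [(1, 0, 0, 0), (-2, 1, 0, 0), (2, 0, 1, 0), (4, 0, 0, 1)]

/-- the coercive atom in dimension `N = 2 M + 1` -/
def A1 (c : ℚ) (M : ℕ) : At := ⟨c, M, 0, 1, L1⟩

/-! ### measures, square function, Riesz transform -/

/-- measures for which all kernels are absolutely integrable -/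
def NiceN (N : ℕ) (ν : Measure (X d)) : Prop :=
  IsFiniteMeasure ν ∧ ∃ C : ℝ, ∀ p : X d, ∫⁻ x, ‖x - p‖ₑ⁻¹ ^ N ∂ν ≤ ENNReal.ofReal C

/-- the scalar kernel of dimension `2 M + 1`, integrated against the measure -/
noncomputable def KN (M : ℕ) (μ : Measure (X d)) (z : X d) (β : ℝ) (Y : X d) : ℝ :=
  ∫ x, ‖x - z‖⁻¹ ^ (2 * M) * ek 1 β z x Y ∂μ

/-- the square function -/
noncomputable def QN (M : ℕ) (μ : Measure (X d)) (z : X d) (t : ℝ) : ℝ≥0∞ :=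
  ENNReal.ofReal ((t ^ d * gc d 4)⁻¹ * t⁻¹ ^ 2) * ∫⁻ Y, ‖KN M μ z (2 / t ^ 2) Y‖ₑ ^ 2

/-- the Riesz transform of dimension `N` of a nice measure -/
noncomputable def FN (N : ℕ) (ν : Measure (X d)) (z : X d) : X d :=
  ∫ x, ‖z - x‖⁻¹ ^ (N + 1) • (z - x) ∂ν

/-- the symmetric product of two Riesz kernels -/
noncomputable def LN (N : ℕ) (a b : X d) : ℝ := ‖a‖⁻¹ ^ (N + 1) * ‖b‖⁻¹ ^ (N + 1) * ⟪a, b⟫

/-- the majorant of all triple integrals -/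
noncomputable def SN (N : ℕ) (q : X d × (X d × X d)) : ℝ :=
  ‖q.2.1 - q.1‖⁻¹ ^ N * ‖q.2.2 - q.1‖⁻¹ ^ N + ‖q.2.1 - q.1‖⁻¹ ^ N * ‖q.2.1 - q.2.2‖⁻¹ ^ N +
    ‖q.2.2 - q.1‖⁻¹ ^ N * ‖q.2.1 - q.2.2‖⁻¹ ^ N

end Pool.Agent.H48.RG
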