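import Pool.Agent.H48.RG.Defs

/-!
Template: R9/EnA.lean (general N now).  WN_bound: |WN T a b| ≤ (∑ |c| bd) * SN: in Tim (slg gives the bound of the integral, so of
its value); here only S and ae.
-/

set_option autoImplicit false

open MeasureTheory Filter Topology Metric Set
open scoped RealInnerProductSpace ENNReal

namespace Pool.Agent.H48.RG

open Pool.Agent.RZ Pool.Agent.H1.LD Pool.Agent.H48.R7

variable {d : ℕ}

theorem RGEnA_rev (p q : X d) : ‖p - q‖ₑ = ‖q - p‖ₑ := by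
  rw [← enorm_neg, neg_sub]

theorem RGEnA_hne (N : ℕ) (p q : X d) : ‖p - q‖ₑ⁻¹ ^ N ≠ 0 := by
  simp

theorem RGEnA_le (N : ℕ) (p q : X d) : ‖‖p - q‖⁻¹ ^ N‖ₑ ≤ ‖p - q‖ₑ⁻¹ ^ N := by
  rcases eq_or_ne p q with rfl | h
  · simp only [sub_self, norm_zero, inv_zero, enorm_zero, ENNReal.inv_zero, enorm_pow]
    gcongr
    exact zero_le
  · have h1 : 0 < ‖p - q‖ := norm_pos_iff.2 (sub_ne_zero.2 h)
    rw [Real.enorm_eq_ofReal (by positivity), ENNReal.ofReal_pow (by positivity),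
      ENNReal.ofReal_inv_of_pos h1, ofReal_norm]

theorem RGEnA_t1 {N : ℕ} {ν : Measure (X d)} (h : NiceN N ν) :
    ∫⁻ q : X d × (X d × X d), ‖q.2.1 - q.1‖ₑ⁻¹ ^ N * ‖q.2.2 - q.1‖ₑ⁻¹ ^ N
      ∂(ν.prod (ν.prod ν)) < ∞ := by
  obtain ⟨hf, C, hC⟩ := h
  have := hf
  rw [lintegral_prod _ (by fun_prop)]
  calc _ ≤ ∫⁻ z, ENNReal.ofReal C * ENNReal.ofReal C ∂ν := by
        refine lintegral_mono fun z => ?_
        rw [lintegral_prod _ (by fun_prop)]
        calc _ ≤ ∫⁻ x, ‖x - z‖ₑ⁻¹ ^ N * ENNReal.ofReal C ∂ν := by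
              refine lintegral_mono fun x => ?_
              simp only
              rw [lintegral_const_mul _ (by fun_prop)]
              gcongr
              exact hC z
          _ = (∫⁻ x, ‖x - z‖ₑ⁻¹ ^ N ∂ν) * ENNReal.ofReal C :=
              lintegral_mul_const _ (by fun_prop)
          _ ≤ _ := by gcongr; exact hC z
    _ = ENNReal.ofReal C * ENNReal.ofReal C * ν univ := lintegral_const _
    _ < ∞ := ENNReal.mul_lt_top (ENNReal.mul_lt_top ENNReal.ofReal_lt_top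
        ENNReal.ofReal_lt_top) (measure_lt_top _ _)

theorem RGEnA_t2 {N : ℕ} {ν : Measure (X d)} (h : NiceN N ν) :
    ∫⁻ q : X d × (X d × X d), ‖q.2.1 - q.1‖ₑ⁻¹ ^ N * ‖q.2.1 - q.2.2‖ₑ⁻¹ ^ N
      ∂(ν.prod (ν.prod ν)) < ∞ := by
  obtain ⟨hf, C, hC⟩ := h
  have := hf
  rw [lintegral_prod _ (by fun_prop)]
  calc _ ≤ ∫⁻ z, ENNReal.ofReal C * ENNReal.ofReal C ∂ν := by
        refine lintegral_mono fun z => ?_
        rw [lintegral_prod _ (by fun_prop)]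
        calc _ ≤ ∫⁻ x, ‖x - z‖ₑ⁻¹ ^ N * ENNReal.ofReal C ∂ν := by
              refine lintegral_mono fun x => ?_
              simp only
              rw [lintegral_const_mul _ (by fun_prop)]
              gcongr
              simp only [RGEnA_rev x]
              exact hC x
          _ = (∫⁻ x, ‖x - z‖ₑ⁻¹ ^ N ∂ν) * ENNReal.ofReal C :=
              lintegral_mul_const _ (by fun_prop)
          _ ≤ _ := by gcongr; exact hC z
    _ = ENNReal.ofReal C * ENNReal.ofReal C * ν univ := lintegral_const _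
    _ < ∞ := ENNReal.mul_lt_top (ENNReal.mul_lt_top ENNReal.ofReal_lt_top
        ENNReal.ofReal_lt_top) (measure_lt_top _ _)

theorem RGEnA_t3 {N : ℕ} {ν : Measure (X d)} (h : NiceN N ν) :
    ∫⁻ q : X d × (X d × X d), ‖q.2.2 - q.1‖ₑ⁻¹ ^ N * ‖q.2.1 - q.2.2‖ₑ⁻¹ ^ N
      ∂(ν.prod (ν.prod ν)) < ∞ := by
  obtain ⟨hf, C, hC⟩ := h
  have := hf
  rw [lintegral_prod _ (by fun_prop)]
  calc _ ≤ ∫⁻ z, ENNReal.ofReal C * ENNReal.ofReal C ∂ν := by
        refine lintegral_mono fun z => ?_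
        rw [lintegral_prod_symm _ (by fun_prop)]
        calc _ ≤ ∫⁻ x, ‖x - z‖ₑ⁻¹ ^ N * ENNReal.ofReal C ∂ν := by
              refine lintegral_mono fun x => ?_
              simp only
              rw [lintegral_const_mul _ (by fun_prop)]
              gcongr
              exact hC x
          _ = (∫⁻ x, ‖x - z‖ₑ⁻¹ ^ N ∂ν) * ENNReal.ofReal C :=
              lintegral_mul_const _ (by fun_prop)
          _ ≤ _ := by gcongr; exact hC z
    _ = ENNReal.ofReal C * ENNReal.ofReal C * ν univ := lintegral_const _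
    _ < ∞ := ENNReal.mul_lt_top (ENNReal.mul_lt_top ENNReal.ofReal_lt_top
        ENNReal.ofReal_lt_top) (measure_lt_top _ _)

theorem RGEnA_i1 {N : ℕ} {ν : Measure (X d)} (h : NiceN N ν) :
    Integrable (fun q : X d × (X d × X d) => ‖q.2.1 - q.1‖⁻¹ ^ N * ‖q.2.2 - q.1‖⁻¹ ^ N)
      (ν.prod (ν.prod ν)) := by
  refine ⟨by fun_prop, lt_of_le_of_lt (lintegral_mono fun q => ?_) (RGEnA_t1 h)⟩
  rw [enorm_mul]
  exact mul_le_mul' (RGEnA_le _ _ _) (RGEnA_le _ _ _)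

theorem RGEnA_i2 {N : ℕ} {ν : Measure (X d)} (h : NiceN N ν) :
    Integrable (fun q : X d × (X d × X d) => ‖q.2.1 - q.1‖⁻¹ ^ N * ‖q.2.1 - q.2.2‖⁻¹ ^ N)
      (ν.prod (ν.prod ν)) := by
  refine ⟨by fun_prop, lt_of_le_of_lt (lintegral_mono fun q => ?_) (RGEnA_t2 h)⟩
  rw [enorm_mul]
  exact mul_le_mul' (RGEnA_le _ _ _) (RGEnA_le _ _ _)

theorem RGEnA_i3 {N : ℕ} {ν : Measure (X d)} (h : NiceN N ν) :
    Integrable (fun q : X d × (X d × X d) => ‖q.2.2 - q.1‖⁻¹ ^ N * ‖q.2.1 - q.2.2‖⁻¹ ^ N)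
      (ν.prod (ν.prod ν)) := by
  refine ⟨by fun_prop, lt_of_le_of_lt (lintegral_mono fun q => ?_) (RGEnA_t3 h)⟩
  rw [enorm_mul]
  exact mul_le_mul' (RGEnA_le _ _ _) (RGEnA_le _ _ _)

theorem SN_int {N : ℕ} {ν : Measure (X d)} (h : NiceN N ν) :
    Integrable (SN (d := d) N) (ν.prod (ν.prod ν)) := by
  have e := ((RGEnA_i1 h).add (RGEnA_i2 h)).add (RGEnA_i3 h)
  exact e

theorem aeN {N : ℕ} (hN : 1 ≤ N) {ν : Measure (X d)} (h : NiceN N ν) :
    ∀ᵐ q : X d × (X d × X d) ∂(ν.prod (ν.prod ν)),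
      q.2.1 ≠ q.1 ∧ q.2.2 ≠ q.1 ∧ q.2.1 ≠ q.2.2 := by
  have := h.1
  filter_upwards [ae_lt_top (by fun_prop) (RGEnA_t1 h).ne, ae_lt_top (by fun_prop) (RGEnA_t2 h).ne]
    with q h1 h2
  refine ⟨fun e => ?_, fun e => ?_, fun e => ?_⟩
  · rw [e] at h1
    refine absurd h1 (not_lt.2 (top_le_iff.2 ?_))
    rw [ENNReal.mul_eq_top]
    exact Or.inr ⟨by simp; omega, RGEnA_hne _ _ _⟩
  · rw [e] at h1
    refine absurd h1 (not_lt.2 (top_le_iff.2 ?_))
    rw [ENNReal.mul_eq_top]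
    exact Or.inl ⟨RGEnA_hne _ _ _, by simp; omega⟩
  · rw [e] at h2
    refine absurd h2 (not_lt.2 (top_le_iff.2 ?_))
    rw [ENNReal.mul_eq_top]
    exact Or.inl ⟨RGEnA_hne _ _ _, by simp; omega⟩

end Pool.Agent.H48.RG
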