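import Pool.Agent.H48.RG.Dbq
import Pool.Agent.H48.RG.Tim

/-!
Fixed z.  SN_fix: ∫ u^N v^N = (∫ u^N)² and ∬ u^N w^N ≤ C ∫ u^N.  ae_fix: NiceN N ν, N ≥ 1: ν has no atoms (‖0‖ₑ⁻¹ = ⊤), so p.1 ≠ z,
p.2 ≠ z and p.1 ≠ p.2 for ν×ν-almost every p.
fix_int: Fubini-Tonelli over (p,t): ∫_p ∫_t ‖fg‖ ≤ bd ∫ SN(z,p) (slg; integrable_prod_iff as in R9/EnB.lean; measurability of fg in
(p,t)), |ω p.1 ω p.2| ≤ 1.
fix_pos: ∫_p wa li ω ω' = ∫_p ∫_t fg ω ω' = ∫_t ∫_p fg ω ω' ≥ 0 (fg_double).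
-/

set_option autoImplicit false

open MeasureTheory Filter Topology Metric Set
open scoped RealInnerProductSpace ENNReal

namespace Pool.Agent.H48.RG

open Pool.Agent.RZ Pool.Agent.H1.LD Pool.Agent.H48.R7

variable {d : ℕ}

private theorem RGFix_rev (p q : X d) : ‖p - q‖ₑ = ‖q - p‖ₑ := by
  rw [← enorm_neg, neg_sub]

private theorem RGFix_hne (N : ℕ) (p q : X d) : ‖p - q‖ₑ⁻¹ ^ N ≠ 0 := by
  refine pow_ne_zero N ?_
  simp

private theorem RGFix_top {N : ℕ} (hN : 1 ≤ N) (p : X d) : ‖p - p‖ₑ⁻¹ ^ N = ∞ := by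
  rw [sub_self, enorm_zero, ENNReal.inv_zero, ENNReal.top_pow (by omega)]

private theorem RGFix_le (N : ℕ) (p q : X d) : ‖‖p - q‖⁻¹ ^ N‖ₑ ≤ ‖p - q‖ₑ⁻¹ ^ N := by
  rcases Nat.eq_zero_or_pos N with rfl | hN
  · simp
  rcases eq_or_ne p q with rfl | h
  · rw [RGFix_top hN]
    exact le_top
  · have h1 : 0 < ‖p - q‖ := norm_pos_iff.2 (sub_ne_zero.2 h)
    rw [Real.enorm_eq_ofReal (by positivity), ENNReal.ofReal_pow (by positivity),
      ENNReal.ofReal_inv_of_pos h1, ofReal_norm]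

private theorem RGFix_t1 {N : ℕ} {ν : Measure (X d)} (h : NiceN N ν) (z : X d) :
    ∫⁻ p : X d × X d, ‖p.1 - z‖ₑ⁻¹ ^ N * ‖p.2 - z‖ₑ⁻¹ ^ N ∂(ν.prod ν) < ∞ := by
  obtain ⟨hf, C, hC⟩ := h
  have := hf
  rw [lintegral_prod _ (by fun_prop)]
  calc _ ≤ ∫⁻ x, ‖x - z‖ₑ⁻¹ ^ N * ENNReal.ofReal C ∂ν := by
        refine lintegral_mono fun x => ?_
        simp only
        rw [lintegral_const_mul _ (by fun_prop)]
        gcongr
        exact hC z
    _ = (∫⁻ x, ‖x - z‖ₑ⁻¹ ^ N ∂ν) * ENNReal.ofReal C :=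
        lintegral_mul_const _ (by fun_prop)
    _ ≤ ENNReal.ofReal C * ENNReal.ofReal C := by gcongr; exact hC z
    _ < ∞ := ENNReal.mul_lt_top ENNReal.ofReal_lt_top ENNReal.ofReal_lt_top

private theorem RGFix_t2 {N : ℕ} {ν : Measure (X d)} (h : NiceN N ν) (z : X d) :
    ∫⁻ p : X d × X d, ‖p.1 - z‖ₑ⁻¹ ^ N * ‖p.1 - p.2‖ₑ⁻¹ ^ N ∂(ν.prod ν) < ∞ := by
  obtain ⟨hf, C, hC⟩ := h
  have := hf
  rw [lintegral_prod _ (by fun_prop)]
  calc _ ≤ ∫⁻ x, ‖x - z‖ₑ⁻¹ ^ N * ENNReal.ofReal C ∂ν := by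
        refine lintegral_mono fun x => ?_
        simp only
        rw [lintegral_const_mul _ (by fun_prop)]
        gcongr
        simp only [RGFix_rev x]
        exact hC x
    _ = (∫⁻ x, ‖x - z‖ₑ⁻¹ ^ N ∂ν) * ENNReal.ofReal C :=
        lintegral_mul_const _ (by fun_prop)
    _ ≤ ENNReal.ofReal C * ENNReal.ofReal C := by gcongr; exact hC z
    _ < ∞ := ENNReal.mul_lt_top ENNReal.ofReal_lt_top ENNReal.ofReal_lt_top

private theorem RGFix_t3 {N : ℕ} {ν : Measure (X d)} (h : NiceN N ν) (z : X d) :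
    ∫⁻ p : X d × X d, ‖p.2 - z‖ₑ⁻¹ ^ N * ‖p.1 - p.2‖ₑ⁻¹ ^ N ∂(ν.prod ν) < ∞ := by
  obtain ⟨hf, C, hC⟩ := h
  have := hf
  rw [lintegral_prod_symm _ (by fun_prop)]
  calc _ ≤ ∫⁻ x, ‖x - z‖ₑ⁻¹ ^ N * ENNReal.ofReal C ∂ν := by
        refine lintegral_mono fun x => ?_
        simp only
        rw [lintegral_const_mul _ (by fun_prop)]
        gcongr
        exact hC x
    _ = (∫⁻ x, ‖x - z‖ₑ⁻¹ ^ N ∂ν) * ENNReal.ofReal C :=
        lintegral_mul_const _ (by fun_prop)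
    _ ≤ ENNReal.ofReal C * ENNReal.ofReal C := by gcongr; exact hC z
    _ < ∞ := ENNReal.mul_lt_top ENNReal.ofReal_lt_top ENNReal.ofReal_lt_top

theorem SN_fix {N : ℕ} {ν : Measure (X d)} (h : NiceN N ν) (z : X d) :
    Integrable (fun p : X d × X d => SN N (z, p)) (ν.prod ν) := by
  have i1 : Integrable (fun p : X d × X d => ‖p.1 - z‖⁻¹ ^ N * ‖p.2 - z‖⁻¹ ^ N) (ν.prod ν) := by
    refine ⟨by fun_prop, lt_of_le_of_lt (lintegral_mono fun q => ?_) (RGFix_t1 h z)⟩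
    rw [enorm_mul]
    exact mul_le_mul' (RGFix_le _ _ _) (RGFix_le _ _ _)
  have i2 : Integrable (fun p : X d × X d => ‖p.1 - z‖⁻¹ ^ N * ‖p.1 - p.2‖⁻¹ ^ N)
      (ν.prod ν) := by
    refine ⟨by fun_prop, lt_of_le_of_lt (lintegral_mono fun q => ?_) (RGFix_t2 h z)⟩
    rw [enorm_mul]
    exact mul_le_mul' (RGFix_le _ _ _) (RGFix_le _ _ _)
  have i3 : Integrable (fun p : X d × X d => ‖p.2 - z‖⁻¹ ^ N * ‖p.1 - p.2‖⁻¹ ^ N)
      (ν.prod ν) := by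
    refine ⟨by fun_prop, lt_of_le_of_lt (lintegral_mono fun q => ?_) (RGFix_t3 h z)⟩
    rw [enorm_mul]
    exact mul_le_mul' (RGFix_le _ _ _) (RGFix_le _ _ _)
  exact (i1.add i2).add i3

theorem ae_fix {N : ℕ} (hN : 1 ≤ N) {ν : Measure (X d)} (h : NiceN N ν) (z : X d) :
    ∀ᵐ p : X d × X d ∂(ν.prod ν), p.1 ≠ z ∧ p.2 ≠ z ∧ p.1 ≠ p.2 := by
  have := h.1
  filter_upwards [ae_lt_top (by fun_prop) (RGFix_t1 h z).ne,
    ae_lt_top (by fun_prop) (RGFix_t2 h z).ne] with p h1 h2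
  refine ⟨fun e => ?_, fun e => ?_, fun e => ?_⟩
  · rw [e] at h1
    refine absurd h1 (not_lt.2 (top_le_iff.2 ?_))
    rw [ENNReal.mul_eq_top]
    exact Or.inr ⟨RGFix_top hN _, RGFix_hne _ _ _⟩
  · rw [e] at h1
    refine absurd h1 (not_lt.2 (top_le_iff.2 ?_))
    rw [ENNReal.mul_eq_top]
    exact Or.inl ⟨RGFix_hne _ _ _, RGFix_top hN _⟩
  · rw [e] at h2
    refine absurd h2 (not_lt.2 (top_le_iff.2 ?_))
    rw [ENNReal.mul_eq_top]
    exact Or.inl ⟨RGFix_hne _ _ _, RGFix_top hN _⟩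

private theorem RGFix_measL (z : X d) (L : List Mn) :
    Measurable fun q : (X d × X d) × ℝ =>
      (L.map fun μ => mv μ (q.1.1 - z) (q.1.2 - z) * q.2⁻¹ ^ (2 * wt μ)).sum := by
  induction L with
  | nil =>
    simp only [List.map_nil, List.sum_nil]
    exact measurable_const
  | cons μ L ih =>
    simp only [List.map_cons, List.sum_cons]
    refine Measurable.add ?_ ih
    unfold mv prg
    fun_prop

private theorem RGFix_meas (A : At) {ω : X d → ℝ} (hω : Measurable ω) (z : X d) :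
    Measurable fun q : (X d × X d) × ℝ => fg A z q.1 q.2 * (ω q.1.1 * ω q.1.2) := by
  have h1 := RGFix_measL z A.L
  unfold fg lv wa
  fun_prop

theorem fix_int {N : ℕ} (hN : 1 ≤ N) {ν : Measure (X d)} (h : NiceN N ν) {A : At} (hA : OK d N A)
    {ω : X d → ℝ} (hω : Measurable ω) (h1 : ∀ x, |ω x| ≤ 1) (z : X d) :
    Integrable (fun q : (X d × X d) × ℝ => fg A z q.1 q.2 * (ω q.1.1 * ω q.1.2))
      ((ν.prod ν).prod (volume.restrict (Ioi 0))) := by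
  have := h.1
  have hf := RGFix_meas A hω z
  refine ⟨hf.aestronglyMeasurable, ?_⟩
  have h0 : ∫⁻ q : (X d × X d) × ℝ, ‖fg A z q.1 q.2 * (ω q.1.1 * ω q.1.2)‖ₑ
      ∂((ν.prod ν).prod (volume.restrict (Ioi 0))) < ∞ := by
    rw [lintegral_prod _ hf.enorm.aemeasurable]
    calc _ ≤ ∫⁻ p, ENNReal.ofReal (bd A.k A.L * SN N (z, p)) ∂(ν.prod ν) := by
          refine lintegral_mono_ae ?_
          filter_upwards [ae_fix hN h z] with p hp
          obtain ⟨s1, _, s3⟩ := slg hA.hm hA.hL hp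
          refine le_trans ?_ (ENNReal.ofReal_le_ofReal s3)
          rw [ofReal_integral_norm_eq_lintegral_enorm s1]
          refine lintegral_mono fun t => ?_
          have e : ‖ω p.1 * ω p.2‖ₑ ≤ 1 := by
            have e1 : ‖ω p.1 * ω p.2‖ ≤ 1 := by
              rw [norm_mul, Real.norm_eq_abs, Real.norm_eq_abs]
              exact mul_le_one₀ (h1 p.1) (abs_nonneg _) (h1 p.2)
            rw [← ofReal_norm, ← ENNReal.ofReal_one]
            exact ENNReal.ofReal_le_ofReal e1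
          calc ‖fg A z p t * (ω p.1 * ω p.2)‖ₑ = ‖fg A z p t‖ₑ * ‖ω p.1 * ω p.2‖ₑ :=
                enorm_mul _ _
            _ ≤ ‖fg A z p t‖ₑ * 1 := by gcongr
            _ = ‖fg A z p t‖ₑ := mul_one _
      _ < ∞ := ((SN_fix h z).const_mul (bd A.k A.L)).lintegral_lt_top
  exact h0

theorem fix_pos {N : ℕ} (hN : 1 ≤ N) {ν : Measure (X d)} (h : NiceN N ν) {A : At} (hA : OK d N A)
    {ω : X d → ℝ} (hω : Measurable ω) (h1 : ∀ x, |ω x| ≤ 1) (z : X d) :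
    Integrable (fun p : X d × X d => wa A (p.1 - z) (p.2 - z) *
      li A.k A.L (p.1 - z) (p.2 - z) * (ω p.1 * ω p.2)) (ν.prod ν) ∧
    0 ≤ ∫ p, wa A (p.1 - z) (p.2 - z) * li A.k A.L (p.1 - z) (p.2 - z) * (ω p.1 * ω p.2)
      ∂(ν.prod ν) := by
  have := h.1
  have hI := fix_int hN h hA hω h1 z
  have hae : (fun p : X d × X d => ∫ t in Ioi (0 : ℝ), fg A z p t * (ω p.1 * ω p.2))
      =ᵐ[ν.prod ν] fun p => wa A (p.1 - z) (p.2 - z) *
      li A.k A.L (p.1 - z) (p.2 - z) * (ω p.1 * ω p.2) := by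
    filter_upwards [ae_fix hN h z] with p hp
    obtain ⟨_, s2, _⟩ := slg hA.hm hA.hL hp
    rw [integral_mul_const, s2]
  have hL := hI.integral_prod_left
  refine ⟨hL.congr hae, ?_⟩
  rw [← integral_congr_ae hae, integral_integral_swap hI]
  refine setIntegral_nonneg measurableSet_Ioi fun t ht => ?_
  exact (fg_double h hA hω h1 z ht).2

end Pool.Agent.H48.RG
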