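import Pool.Agent.H48.RG.Defs
import Pool.Agent.H48.R7.Pair

/-!
Gaussian moments.  Template: R9/PairB.lean (its Stein lemma and its change of variables; copy the private lemmas with the
prefix RGMom_).
gauss_mom: recursion in (i,j) by the Stein lemma (mo is defined by the same recursion): with β = 2/s², Y = z + (a+b)/2 + w, a = x - z,
b = x' - z, h = (a-b)/2: x - Y = h - w, x' - Y = -h - w, β⟪a,x-Y⟫ = P - g, g = β⟪a,w⟫, P = β⟪a,h⟫ = ⟪a,a-b⟫/s²,
β⟪b,x'-Y⟫ = R - g', g' = β⟪b,w⟫, R = ⟪b,b-a⟫/s²; the product of the Gaussians is exp(-‖a-b‖²/s²) ga (4/s²) w.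
Stein: ∫ ga (4/s²) w * ⟪w,a⟫ f(w) = (s²/8) ∫ ga (4/s²) w (∂_a f)(w), so the covariances of g, g' are ‖a‖²/(2s²), ‖b‖²/(2s²),
⟪a,b⟫/(2s²).  gc d (4/s²) = s^d gc d 4.  State first for all P R : ℝ:
∫ ga (4/s²) w * ((P - β⟪w,a⟫)^i (R - β⟪w,b⟫)^j) = gc d (4/s²) * mo P R A B p i j.
-/

set_option autoImplicit false

open MeasureTheory Filter Topology Metric Set
open scoped RealInnerProductSpace ENNReal

namespace Pool.Agent.H48.RG

open Pool.Agent.RZ Pool.Agent.H1.LD Pool.Agent.H48.R7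

variable {d : ℕ}

/-- continuous functions of polynomial growth -/
private def RGMom_pg (F : X d → ℝ) : Prop :=
  Continuous F ∧ ∃ (m : ℕ) (C : ℝ), 0 ≤ C ∧ ∀ w, |F w| ≤ C * (1 + ‖w‖) ^ m

private theorem RGMom_mul {F G : X d → ℝ} (hF : RGMom_pg F) (hG : RGMom_pg G) :
    RGMom_pg (fun w => F w * G w) := by
  obtain ⟨h1, m, C, hC, h2⟩ := hF
  obtain ⟨h3, m', C', hC', h4⟩ := hG
  refine ⟨h1.mul h3, m + m', C * C', mul_nonneg hC hC', fun w => ?_⟩
  rw [abs_mul]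
  calc |F w| * |G w| ≤ (C * (1 + ‖w‖) ^ m) * (C' * (1 + ‖w‖) ^ m') :=
        mul_le_mul (h2 w) (h4 w) (abs_nonneg _) (by positivity)
    _ = C * C' * (1 + ‖w‖) ^ (m + m') := by ring

private theorem RGMom_add {F G : X d → ℝ} (hF : RGMom_pg F) (hG : RGMom_pg G) :
    RGMom_pg (fun w => F w + G w) := by
  obtain ⟨h1, m, C, hC, h2⟩ := hF
  obtain ⟨h3, m', C', hC', h4⟩ := hG
  refine ⟨h1.add h3, m + m', C + C', add_nonneg hC hC', fun w => ?_⟩
  have h0 : 1 ≤ 1 + ‖w‖ := by linarith [norm_nonneg w]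
  have h5 : (1 + ‖w‖) ^ m ≤ (1 + ‖w‖) ^ (m + m') := pow_le_pow_right₀ h0 (by omega)
  have h6 : (1 + ‖w‖) ^ m' ≤ (1 + ‖w‖) ^ (m + m') := pow_le_pow_right₀ h0 (by omega)
  calc |F w + G w| ≤ |F w| + |G w| := abs_add_le _ _
    _ ≤ C * (1 + ‖w‖) ^ m + C' * (1 + ‖w‖) ^ m' := add_le_add (h2 w) (h4 w)
    _ ≤ C * (1 + ‖w‖) ^ (m + m') + C' * (1 + ‖w‖) ^ (m + m') :=
        add_le_add (mul_le_mul_of_nonneg_left h5 hC) (mul_le_mul_of_nonneg_left h6 hC')
    _ = (C + C') * (1 + ‖w‖) ^ (m + m') := by ring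

private theorem RGMom_const (c : ℝ) : RGMom_pg (fun _ : X d => c) := by
  refine ⟨continuous_const, 0, |c|, abs_nonneg c, fun w => ?_⟩
  simp

private theorem RGMom_in (a : X d) : RGMom_pg (fun w => ⟪w, a⟫) := by
  refine ⟨by fun_prop, 1, ‖a‖, norm_nonneg a, fun w => ?_⟩
  have h1 := abs_real_inner_le_norm w a
  have h2 := norm_nonneg a
  rw [pow_one]
  nlinarith

private theorem RGMom_int {b : ℝ} (hb : 0 < b) {F : X d → ℝ} (hF : RGMom_pg F) :
    Integrable (fun w : X d => ga b w * F w) := by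
  obtain ⟨h1, m, C, hC, h2⟩ := hF
  refine ((ga_integrable hb m).const_mul C).mono'
    ((ga_continuous b).mul h1).aestronglyMeasurable (Eventually.of_forall fun w => ?_)
  rw [Real.norm_eq_abs, abs_mul, abs_of_nonneg (ga_nonneg b w)]
  calc ga b w * |F w| ≤ ga b w * (C * (1 + ‖w‖) ^ m) :=
        mul_le_mul_of_nonneg_left (h2 w) (ga_nonneg b w)
    _ = C * ((1 + ‖w‖) ^ m * ga b w) := by ring

private theorem RGMom_deriv (b : ℝ) (w a : X d) :
    HasLineDerivAt ℝ (ga b : X d → ℝ) (ga b w * (-(2 * b) * ⟪w, a⟫)) w a := by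
  unfold HasLineDerivAt
  have h1 : HasDerivAt (fun t : ℝ => w + t • a) a 0 := by
    have h2 := ((hasDerivAt_id (0 : ℝ)).smul_const a).const_add w
    simpa using h2
  have h2 : HasDerivAt (fun t : ℝ => ‖w + t • a‖ ^ 2) (2 * ⟪w + (0 : ℝ) • a, a⟫) 0 := h1.norm_sq
  have h3 : HasDerivAt (fun t : ℝ => -(b * ‖w + t • a‖ ^ 2))
      (-(b * (2 * ⟪w + (0 : ℝ) • a, a⟫))) 0 := (h2.const_mul b).neg
  have h4 := h3.exp
  have e : ga b w * (-(2 * b) * ⟪w, a⟫) = Real.exp (-(b * ‖w + (0 : ℝ) • a‖ ^ 2)) *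
      -(b * (2 * ⟪w + (0 : ℝ) • a, a⟫)) := by
    rw [zero_smul, add_zero]
    unfold ga
    ring
  rw [e]
  exact h4

/-- integration by parts -/
private theorem RGMom_stein {b : ℝ} (hb : 0 < b) {f f' : X d → ℝ} (a : X d) (hf : RGMom_pg f)
    (hf' : RGMom_pg f') (h : ∀ w, HasLineDerivAt ℝ f (f' w) w a) :
    ∫ w : X d, ga b w * f' w = 2 * b * ∫ w : X d, ga b w * (⟪w, a⟫ * f w) := by
  have h := integral_bilinear_hasLineDerivAt_right_eq_neg_left_of_integrable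
    (μ := (volume : Measure (X d))) (f := fun w : X d => ga b w)
    (f' := fun w => ga b w * (-(2 * b) * ⟪w, a⟫)) (g := f)
    (g' := f') (v := a) (B := ContinuousLinearMap.mul ℝ ℝ) ?_ ?_ ?_ ?_ ?_
  · simp only [ContinuousLinearMap.mul_apply'] at h
    rw [h, ← integral_const_mul, ← integral_neg]
    refine integral_congr_ae (Eventually.of_forall fun w => ?_)
    simp only
    ring
  · simp only [ContinuousLinearMap.mul_apply']
    have h1 := (RGMom_int hb (RGMom_mul (RGMom_in a) hf)).const_mul (-(2 * b))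
    refine h1.congr (Eventually.of_forall fun w => ?_)
    simp only
    ring
  · simp only [ContinuousLinearMap.mul_apply']
    exact RGMom_int hb hf'
  · simp only [ContinuousLinearMap.mul_apply']
    exact RGMom_int hb hf
  · intro w _
    exact RGMom_deriv b w a
  · intro w _
    exact h w

private theorem RGMom_d1 (w a c : X d) :
    HasDerivAt (fun t : ℝ => ⟪w + t • a, c⟫) ⟪a, c⟫ 0 := by
  have h2 := ((hasDerivAt_id (0 : ℝ)).mul_const ⟪a, c⟫).const_add ⟪w, c⟫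
  rw [one_mul] at h2
  refine h2.congr_of_eventuallyEq (Eventually.of_forall fun t => ?_)
  simp only [id]
  rw [inner_add_left, real_inner_smul_left]

private theorem RGMom_gc {s : ℝ} (hs : 0 < s) : gc d (4 / s ^ 2) = s ^ d * gc d 4 := by
  have h := MeasureTheory.Measure.integral_comp_smul (volume : Measure (X d)) (fun w : X d => ga 4 w) s⁻¹
  have h1 : (fun w : X d => ga 4 (s⁻¹ • w)) = fun w : X d => ga (4 / s ^ 2) w := by
    funext w
    unfold ga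
    congr 1
    rw [norm_smul, norm_inv, Real.norm_eq_abs, abs_of_pos hs]
    field_simp
  rw [h1] at h
  unfold gc
  rw [h]
  rw [finrank_euclideanSpace, Fintype.card_fin, inv_pow, inv_inv, abs_of_pos (pow_pos hs d), smul_eq_mul]

private theorem RGMom_pow {F : X d → ℝ} (hF : RGMom_pg F) (k : ℕ) :
    RGMom_pg (fun w => F w ^ k) := by
  induction k with
  | zero => simpa using RGMom_const (d := d) 1
  | succ k ih => simpa only [pow_succ] using RGMom_mul ih hF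

private theorem RGMom_lin (P β : ℝ) (a : X d) : RGMom_pg (fun w : X d => P - β * ⟪w, a⟫) := by
  have h := RGMom_add (RGMom_const (d := d) P) (RGMom_mul (RGMom_const (d := d) (-β)) (RGMom_in a))
  have e : (fun w : X d => P + -β * ⟪w, a⟫) = fun w : X d => P - β * ⟪w, a⟫ := by
    funext w; ring
  rw [← e]
  exact h

private theorem RGMom_pp (P R β : ℝ) (a c : X d) (i j : ℕ) :
    RGMom_pg (fun w : X d => (P - β * ⟪w, a⟫) ^ i * (R - β * ⟪w, c⟫) ^ j) :=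
  RGMom_mul (RGMom_pow (RGMom_lin P β a) i) (RGMom_pow (RGMom_lin R β c) j)

private noncomputable def RGMom_G (b P R β : ℝ) (a c : X d) (i j : ℕ) : ℝ :=
  ∫ w : X d, ga b w * ((P - β * ⟪w, a⟫) ^ i * (R - β * ⟪w, c⟫) ^ j)

private theorem RGMom_ld (P R β : ℝ) (a c v w : X d) (i j : ℕ) :
    HasLineDerivAt ℝ (fun w : X d => (P - β * ⟪w, a⟫) ^ i * (R - β * ⟪w, c⟫) ^ j)
      (-(β * ⟪v, a⟫ * i) * ((P - β * ⟪w, a⟫) ^ (i - 1) * (R - β * ⟪w, c⟫) ^ j) +
        -(β * ⟪v, c⟫ * j) * ((P - β * ⟪w, a⟫) ^ i * (R - β * ⟪w, c⟫) ^ (j - 1))) w v := by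
  unfold HasLineDerivAt
  have h1 := (((RGMom_d1 w v a).const_mul β).const_sub P).fun_pow i
  have h2 := (((RGMom_d1 w v c).const_mul β).const_sub R).fun_pow j
  have h3 := h1.fun_mul h2
  refine h3.congr_deriv ?_
  rw [zero_smul, add_zero]
  ring

private theorem RGMom_step {b : ℝ} (hb : 0 < b) (P R β : ℝ) (a c v : X d) (i j : ℕ) :
    ∫ w : X d, ga b w * (⟪w, v⟫ * ((P - β * ⟪w, a⟫) ^ i * (R - β * ⟪w, c⟫) ^ j)) =
      (2 * b)⁻¹ * (-(β * ⟪v, a⟫ * i) * RGMom_G b P R β a c (i - 1) j +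
        -(β * ⟪v, c⟫ * j) * RGMom_G b P R β a c i (j - 1)) := by
  have h := RGMom_stein hb v (RGMom_pp P R β a c i j)
    (RGMom_add (RGMom_mul (RGMom_const (-(β * ⟪v, a⟫ * i))) (RGMom_pp P R β a c (i - 1) j))
      (RGMom_mul (RGMom_const (-(β * ⟪v, c⟫ * j))) (RGMom_pp P R β a c i (j - 1))))
    (fun w => RGMom_ld P R β a c v w i j)
  have hb2 : (2 * b) ≠ 0 := by positivity
  have h1 : ∫ w : X d, ga b w * (-(β * ⟪v, a⟫ * i) *
      ((P - β * ⟪w, a⟫) ^ (i - 1) * (R - β * ⟪w, c⟫) ^ j) +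
        -(β * ⟪v, c⟫ * j) * ((P - β * ⟪w, a⟫) ^ i * (R - β * ⟪w, c⟫) ^ (j - 1))) =
      -(β * ⟪v, a⟫ * i) * RGMom_G b P R β a c (i - 1) j +
        -(β * ⟪v, c⟫ * j) * RGMom_G b P R β a c i (j - 1) := by
    unfold RGMom_G
    rw [← integral_const_mul, ← integral_const_mul, ← integral_add]
    · refine integral_congr_ae (Eventually.of_forall fun w => ?_)
      simp only
      ring
    · exact (RGMom_int hb (RGMom_pp P R β a c (i - 1) j)).const_mul _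
    · exact (RGMom_int hb (RGMom_pp P R β a c i (j - 1))).const_mul _
  rw [← h1, h, ← mul_assoc, inv_mul_cancel₀ hb2, one_mul]

private theorem RGMom_i {b : ℝ} (hb : 0 < b) (P R β : ℝ) (a c : X d) (i j : ℕ) :
    RGMom_G b P R β a c (i + 1) j = P * RGMom_G b P R β a c i j +
      i / 2 * (β ^ 2 / b * ‖a‖ ^ 2) * RGMom_G b P R β a c (i - 1) j +
      j / 2 * (β ^ 2 / b * ⟪a, c⟫) * RGMom_G b P R β a c i (j - 1) := by
  have h := RGMom_step hb P R β a c a i j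
  have h1 : RGMom_G b P R β a c (i + 1) j = P * RGMom_G b P R β a c i j -
      β * ∫ w : X d, ga b w * (⟪w, a⟫ * ((P - β * ⟪w, a⟫) ^ i * (R - β * ⟪w, c⟫) ^ j)) := by
    unfold RGMom_G
    rw [← integral_const_mul, ← integral_const_mul, ← integral_sub]
    · refine integral_congr_ae (Eventually.of_forall fun w => ?_)
      simp only
      ring
    · exact (RGMom_int hb (RGMom_pp P R β a c i j)).const_mul _
    · exact (RGMom_int hb (RGMom_mul (RGMom_in a) (RGMom_pp P R β a c i j))).const_mul _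
  rw [h1, h, real_inner_self_eq_norm_sq]
  field_simp
  ring

private theorem RGMom_j {b : ℝ} (hb : 0 < b) (P R β : ℝ) (a c : X d) (j : ℕ) :
    RGMom_G b P R β a c 0 (j + 1) = R * RGMom_G b P R β a c 0 j +
      j / 2 * (β ^ 2 / b * ‖c‖ ^ 2) * RGMom_G b P R β a c 0 (j - 1) := by
  have h := RGMom_step hb P R β a c c 0 j
  have h1 : RGMom_G b P R β a c 0 (j + 1) = R * RGMom_G b P R β a c 0 j -
      β * ∫ w : X d, ga b w * (⟪w, c⟫ * ((P - β * ⟪w, a⟫) ^ 0 * (R - β * ⟪w, c⟫) ^ j)) := by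
    unfold RGMom_G
    rw [← integral_const_mul, ← integral_const_mul, ← integral_sub]
    · refine integral_congr_ae (Eventually.of_forall fun w => ?_)
      simp only
      ring
    · exact (RGMom_int hb (RGMom_pp P R β a c 0 j)).const_mul _
    · exact (RGMom_int hb (RGMom_mul (RGMom_in c) (RGMom_pp P R β a c 0 j))).const_mul _
  rw [h1, h, real_inner_self_eq_norm_sq]
  push_cast
  field_simp
  ring

private theorem RGMom_rec (P R A B p g : ℝ) (G : ℕ → ℕ → ℝ) (h00 : G 0 0 = g)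
    (h0 : ∀ j : ℕ, G 0 (j + 1) = R * G 0 j + j / 2 * B * G 0 (j - 1))
    (h1 : ∀ i j : ℕ, G (i + 1) j = P * G i j + i / 2 * A * G (i - 1) j +
      j / 2 * p * G i (j - 1)) :
    ∀ i j, G i j = g * mo P R A B p i j := by
  have k0 : ∀ j, G 0 j = g * mo P R A B p 0 j := by
    intro j
    induction j using Nat.twoStepInduction with
    | zero => rw [h00, mo]; ring
    | one => rw [h0 0, h00, mo]; push_cast; ring
    | more j ih1 ih2 =>
      rw [h0 (j + 1), ih2, Nat.add_sub_cancel, ih1, mo]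
      push_cast
      ring
  have k1 : ∀ j, G 1 j = g * mo P R A B p 1 j := by
    intro j
    cases j with
    | zero => rw [show (1 : ℕ) = 0 + 1 from rfl, h1 0 0, h00, zero_add, mo]; push_cast; ring
    | succ j =>
      rw [show (1 : ℕ) = 0 + 1 from rfl, h1 0 (j + 1), k0, Nat.add_sub_cancel, k0, zero_add, mo]
      push_cast
      ring
  intro i
  induction i using Nat.twoStepInduction with
  | zero => exact k0
  | one => exact k1
  | more i ih1 ih2 =>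
    intro j
    cases j with
    | zero =>
      rw [h1 (i + 1) 0, ih2, Nat.add_sub_cancel, ih1, mo]
      push_cast
      ring
    | succ j =>
      rw [h1 (i + 1) (j + 1), ih2, Nat.add_sub_cancel, ih1, Nat.add_sub_cancel, ih2, mo]
      push_cast
      ring

private theorem RGMom_main {s : ℝ} (hs : 0 < s) (P R : ℝ) (a c : X d) (i j : ℕ) :
    RGMom_G (4 / s ^ 2) P R (2 / s ^ 2) a c i j = s ^ d * gc d 4 *
      mo P R (‖a‖ ^ 2 / s ^ 2) (‖c‖ ^ 2 / s ^ 2) (⟪a, c⟫ / s ^ 2) i j := by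
  have hB : 0 < 4 / s ^ 2 := by positivity
  have hc : (2 / s ^ 2) ^ 2 / (4 / s ^ 2) = 1 / s ^ 2 := by
    field_simp
    norm_num
  refine RGMom_rec P R _ _ _ _ (RGMom_G (4 / s ^ 2) P R (2 / s ^ 2) a c) ?_ (fun j => ?_)
    (fun i j => ?_) i j
  · rw [← RGMom_gc hs]
    unfold RGMom_G gc
    simp
  · rw [RGMom_j hB, hc]
    ring
  · rw [RGMom_i hB, hc]
    ring

private theorem RGMom_shift {s : ℝ} (hs : 0 < s) (z a b w : X d) (i j : ℕ) :
    (2 / s ^ 2 * ⟪a, z + a - (z + (1 / 2 : ℝ) • (a + b) + w)⟫) ^ i *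
      (2 / s ^ 2 * ⟪b, z + b - (z + (1 / 2 : ℝ) • (a + b) + w)⟫) ^ j *
      (ga (2 / s ^ 2) (z + a - (z + (1 / 2 : ℝ) • (a + b) + w)) *
        ga (2 / s ^ 2) (z + b - (z + (1 / 2 : ℝ) • (a + b) + w))) =
      Real.exp (-(‖a - b‖ ^ 2 / s ^ 2)) * (ga (4 / s ^ 2) w *
        ((⟪a, a - b⟫ / s ^ 2 - 2 / s ^ 2 * ⟪w, a⟫) ^ i *
          (⟪b, b - a⟫ / s ^ 2 - 2 / s ^ 2 * ⟪w, b⟫) ^ j)) := by
  obtain ⟨h, hh⟩ : ∃ h : X d, h = (1 / 2 : ℝ) • (a - b) := ⟨_, rfl⟩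
  have e1 : z + a - (z + (1 / 2 : ℝ) • (a + b) + w) = h - w := by
    rw [hh]
    module
  have e2 : z + b - (z + (1 / 2 : ℝ) • (a + b) + w) = -h - w := by
    rw [hh]
    module
  have hnorm : ‖h - w‖ ^ 2 + ‖-h - w‖ ^ 2 = ‖a - b‖ ^ 2 / 2 + 2 * ‖w‖ ^ 2 := by
    have h1 : ‖-h - w‖ = ‖h + w‖ := by
      rw [← norm_neg]
      congr 1
      abel
    have h2 : ‖h‖ ^ 2 = ‖a - b‖ ^ 2 / 4 := by
      rw [hh, norm_smul, mul_pow]
      norm_num
      ring
    rw [h1, @norm_sub_sq_real, @norm_add_sq_real, h2]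
    ring
  have hga : ga (2 / s ^ 2) (h - w) * ga (2 / s ^ 2) (-h - w) =
      Real.exp (-(‖a - b‖ ^ 2 / s ^ 2)) * ga (4 / s ^ 2) w := by
    unfold ga
    rw [← Real.exp_add, ← Real.exp_add]
    congr 1
    have h1 : -(2 / s ^ 2 * ‖h - w‖ ^ 2) + -(2 / s ^ 2 * ‖-h - w‖ ^ 2) =
        -(2 / s ^ 2 * (‖h - w‖ ^ 2 + ‖-h - w‖ ^ 2)) := by ring
    rw [h1, hnorm]
    field_simp
    ring
  have ha : 2 / s ^ 2 * ⟪a, h - w⟫ = ⟪a, a - b⟫ / s ^ 2 - 2 / s ^ 2 * ⟪w, a⟫ := by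
    rw [inner_sub_right, hh, inner_smul_right, real_inner_comm w a]
    ring
  have hb : 2 / s ^ 2 * ⟪b, -h - w⟫ = ⟪b, b - a⟫ / s ^ 2 - 2 / s ^ 2 * ⟪w, b⟫ := by
    rw [inner_sub_right, inner_neg_right, hh, inner_smul_right, real_inner_comm w b,
      inner_sub_right, inner_sub_right]
    ring
  rw [e1, e2, hga, ha, hb]
  ring

private theorem RGMom_aux {s : ℝ} (hs : 0 < s) (z a b : X d) (i j : ℕ) :
    ∫ Y : X d, (2 / s ^ 2 * ⟪a, z + a - Y⟫) ^ i * (2 / s ^ 2 * ⟪b, z + b - Y⟫) ^ j *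
      (ga (2 / s ^ 2) (z + a - Y) * ga (2 / s ^ 2) (z + b - Y)) =
      s ^ d * gc d 4 * pk i j a b s := by
  have htr := integral_add_left_eq_self (μ := (volume : Measure (X d)))
    (fun Y : X d => (2 / s ^ 2 * ⟪a, z + a - Y⟫) ^ i * (2 / s ^ 2 * ⟪b, z + b - Y⟫) ^ j *
      (ga (2 / s ^ 2) (z + a - Y) * ga (2 / s ^ 2) (z + b - Y)))
    (z + (1 / 2 : ℝ) • (a + b))
  rw [← htr]
  simp only [RGMom_shift hs z a b _ i j]
  rw [integral_const_mul]
  have h := RGMom_main hs (⟪a, a - b⟫ / s ^ 2) (⟪b, b - a⟫ / s ^ 2) a b i j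
  unfold RGMom_G at h
  rw [h]
  unfold pk
  ring

private theorem RGMom_auxi {s : ℝ} (hs : 0 < s) (z a b : X d) (i j : ℕ) :
    Integrable fun Y : X d => (2 / s ^ 2 * ⟪a, z + a - Y⟫) ^ i *
      (2 / s ^ 2 * ⟪b, z + b - Y⟫) ^ j *
      (ga (2 / s ^ 2) (z + a - Y) * ga (2 / s ^ 2) (z + b - Y)) := by
  have hB : 0 < 4 / s ^ 2 := by positivity
  have h := ((RGMom_int hB (RGMom_pp (⟪a, a - b⟫ / s ^ 2) (⟪b, b - a⟫ / s ^ 2) (2 / s ^ 2) a b
    i j)).const_mul (Real.exp (-(‖a - b‖ ^ 2 / s ^ 2)))).comp_add_left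
    (-(z + (1 / 2 : ℝ) • (a + b)))
  refine h.congr (Eventually.of_forall fun Y => ?_)
  simp only
  rw [← RGMom_shift hs z a b (-(z + (1 / 2 : ℝ) • (a + b)) + Y) i j, add_neg_cancel_left]

theorem gauss_mom {s : ℝ} (hs : 0 < s) (z x x' : X d) (i j : ℕ) :
    ∫ Y : X d, (2 / s ^ 2 * ⟪x - z, x - Y⟫) ^ i * (2 / s ^ 2 * ⟪x' - z, x' - Y⟫) ^ j *
      (ga (2 / s ^ 2) (x - Y) * ga (2 / s ^ 2) (x' - Y)) =
      s ^ d * gc d 4 * pk i j (x - z) (x' - z) s := by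
  rw [← RGMom_aux hs z (x - z) (x' - z) i j]
  simp only [add_sub_cancel]

theorem mom_integrable {s : ℝ} (hs : 0 < s) (z x x' : X d) (i j : ℕ) :
    Integrable fun Y : X d => (2 / s ^ 2 * ⟪x - z, x - Y⟫) ^ i *
      (2 / s ^ 2 * ⟪x' - z, x' - Y⟫) ^ j * (ga (2 / s ^ 2) (x - Y) * ga (2 / s ^ 2) (x' - Y)) := by
  have h := RGMom_auxi hs z (x - z) (x' - z) i j
  simp only [add_sub_cancel] at h
  exact h

end Pool.Agent.H48.RG
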