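import Pool.Agent.H48.RG.Defs

/-!
monoN: u^(N-i) v^(N-i) w^(2i) = (uv)^(N-2i) (vw)^i (wu)^i ≤ max(uv,vw,wu)^N ≤ the sum (2i ≤ N).  Template: R9/Mono.lean.
-/

set_option autoImplicit false

open MeasureTheory Filter Topology Metric Set
open scoped RealInnerProductSpace ENNReal

namespace Pool.Agent.H48.RG

open Pool.Agent.RZ Pool.Agent.H1.LD Pool.Agent.H48.R7

variable {d : ℕ}

theorem monoN {u v w : ℝ} (hu : 0 ≤ u) (hv : 0 ≤ v) (hw : 0 ≤ w) {N i : ℕ} (hi : 2 * i ≤ N) :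
    u ^ (N - i) * v ^ (N - i) * w ^ (2 * i) ≤ u ^ N * v ^ N + u ^ N * w ^ N + v ^ N * w ^ N := by
  obtain ⟨k, rfl⟩ := Nat.exists_eq_add_of_le hi
  set M := max (u * v) (max (v * w) (w * u)) with hM
  have h1 : u * v ≤ M := le_max_left _ _
  have h2 : v * w ≤ M := (le_max_left _ _).trans (le_max_right _ _)
  have h3 : w * u ≤ M := (le_max_right _ _).trans (le_max_right _ _)
  have huv : 0 ≤ u * v := mul_nonneg hu hv
  have hvw : 0 ≤ v * w := mul_nonneg hv hw
  have hwu : 0 ≤ w * u := mul_nonneg hw hu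
  have hM0 : 0 ≤ M := huv.trans h1
  have h4 : u ^ (2 * i + k - i) * v ^ (2 * i + k - i) * w ^ (2 * i) =
      (u * v) ^ k * ((v * w) ^ i * (w * u) ^ i) := by
    have e : 2 * i + k - i = k + i := by omega
    rw [e]
    simp only [mul_pow, pow_add, pow_mul]
    ring
  have h5 : (u * v) ^ k * ((v * w) ^ i * (w * u) ^ i) ≤ M ^ (2 * i + k) := by
    have e : M ^ (2 * i + k) = M ^ k * (M ^ i * M ^ i) := by
      rw [← pow_add, ← pow_add]
      congr 1
      omega
    rw [e]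
    exact mul_le_mul (pow_le_pow_left₀ huv h1 k)
      (mul_le_mul (pow_le_pow_left₀ hvw h2 i) (pow_le_pow_left₀ hwu h3 i) (pow_nonneg hwu i)
        (pow_nonneg hM0 i)) (mul_nonneg (pow_nonneg hvw i) (pow_nonneg hwu i)) (pow_nonneg hM0 k)
  have p1 : 0 ≤ u ^ (2 * i + k) * v ^ (2 * i + k) := mul_nonneg (pow_nonneg hu _) (pow_nonneg hv _)
  have p2 : 0 ≤ u ^ (2 * i + k) * w ^ (2 * i + k) := mul_nonneg (pow_nonneg hu _) (pow_nonneg hw _)
  have p3 : 0 ≤ v ^ (2 * i + k) * w ^ (2 * i + k) := mul_nonneg (pow_nonneg hv _) (pow_nonneg hw _)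
  rw [h4]
  refine h5.trans ?_
  rcases max_choice (u * v) (max (v * w) (w * u)) with h | h
  · rw [hM, h, mul_pow]
    linarith
  · rcases max_choice (v * w) (w * u) with h' | h'
    · rw [hM, h, h', mul_pow]
      linarith
    · rw [hM, h, h', mul_pow, mul_comm (w ^ (2 * i + k))]
      linarith

end Pool.Agent.H48.RG
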