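import Pool.Agent.H48.RG.Mom

/-!
gauss_pairG: expand both sums (Finset.sum_mul_sum), integrate term by term (mom_integrable, integral_finsetSum,
integral_const_mul), gauss_mom.
-/

set_option autoImplicit false

open MeasureTheory Filter Topology Metric Set
open scoped RealInnerProductSpace ENNReal

namespace Pool.Agent.H48.RG

open Pool.Agent.RZ Pool.Agent.H1.LD Pool.Agent.H48.R7

variable {d : ℕ}

private theorem RGPairG_expand (κ : ℝ) (α : Fin 6 → ℝ) (β : ℝ) (z x x' Y : X d) :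
    eg κ α β z x Y * eg κ α β z x' Y =
      ∑ i ∈ Finset.range 5, ∑ j ∈ Finset.range 5,
        qg κ α (β * ‖x - z‖ ^ 2) i * qg κ α (β * ‖x' - z‖ ^ 2) j *
          ((β * ⟪x - z, x - Y⟫) ^ i * (β * ⟪x' - z, x' - Y⟫) ^ j *
            (ga β (x - Y) * ga β (x' - Y))) := by
  unfold eg
  have h : ∀ S T g g' : ℝ, (S * g) * (T * g') = (S * T) * (g * g') := fun S T g g' => by ring
  rw [h, Finset.sum_mul_sum, Finset.sum_mul]
  refine Finset.sum_congr rfl fun i _ => ?_
  rw [Finset.sum_mul]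
  refine Finset.sum_congr rfl fun j _ => ?_
  ring

theorem gauss_pairG {s : ℝ} (hs : 0 < s) (κ : ℝ) (α : Fin 6 → ℝ) (z x x' : X d) :
    ∫ Y : X d, eg κ α (2 / s ^ 2) z x Y * eg κ α (2 / s ^ 2) z x' Y =
      s ^ d * gc d 4 * mg κ α (x - z) (x' - z) s := by
  simp only [RGPairG_expand]
  have hi : ∀ i j : ℕ, Integrable fun Y : X d =>
      qg κ α (2 / s ^ 2 * ‖x - z‖ ^ 2) i * qg κ α (2 / s ^ 2 * ‖x' - z‖ ^ 2) j *
        ((2 / s ^ 2 * ⟪x - z, x - Y⟫) ^ i * (2 / s ^ 2 * ⟪x' - z, x' - Y⟫) ^ j *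
          (ga (2 / s ^ 2) (x - Y) * ga (2 / s ^ 2) (x' - Y))) := fun i j =>
    (mom_integrable hs z x x' i j).const_mul _
  rw [integral_finsetSum _ fun i _ => integrable_finsetSum _ fun j _ => hi i j]
  unfold mg
  rw [Finset.mul_sum]
  refine Finset.sum_congr rfl fun i _ => ?_
  rw [integral_finsetSum _ fun j _ => hi i j, Finset.mul_sum]
  refine Finset.sum_congr rfl fun j _ => ?_
  rw [integral_const_mul, gauss_mom hs]
  ring

end Pool.Agent.H48.RG
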